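import Pool.Agent.Helper1.DL.Defs

/-!
BLOCK DL-N1 (about 120 lines; real analysis only). Elementary facts on `NN b x = (2b/π) φ(x/2b)`, `φ(u) = √(1-u²) - u arccos u`.

Proof in words. `Real.arccos` is `0` for arguments `≥ 1`, `Real.sqrt` is `0` for negative arguments, so `φ = 0` on `[1, ∞)`. `φ' = - arccos` on `(-1, 1)`:
`d/du √(1-u²) = -u/√(1-u²)`, `d/du (u arccos u) = arccos u - u/√(1-u²)` (`Real.hasDerivAt_arccos`). So `NN' = - rho` on `(-2b, 2b)`.
* `NN_sub`: `NN` is continuous, constant `0` on `[2b, ∞)`, and on `[0, 2b]` its derivative is `- rho ∈ [-1/2, 0]` (mean value theorem `Convex.norm_image_sub_le..`/`antitoneOn_of_deriv_nonpos`,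
  and the same for `NN x + x/2`, which is monotone).
* `NN_mono`: for fixed `x ≥ 0` the derivative of `b ↦ NN b x` is `(2/π) √(1-(x/2b)²) ∈ [0, 1]` where `2b > x`, and `NN b x = 0` where `2b ≤ x`. One can avoid the derivative in `b`: with `u = x/(2b)`,
  `v = x/(2b')`, `0 ≤ v ≤ u`: if `u ≤ 1`, `b' φ(v) - b φ(u)`: `x = 2 b u = 2 b' v`; `φ` is convex with `φ' = -arccos`, so `φ(v) ≥ φ(u) + (u-v) arccos u` gives
  `b' φ(v) - b φ(u) ≥ (b'-b) φ(u) + b'(u-v) arccos u = (b'-b)(φ(u) + u arccos u) = (b'-b) √(1-u²) ≥ 0` (as `b'(u - v) = b' u - b u`), and `φ(u) ≥ φ(v) - (u-v) arccos v`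
  gives `b' φ(v) - b φ(u) ≤ (b'-b) φ(v) + b(u-v) arccos v = (b'-b)(φ(v) + v arccos v) ≤ b' - b` (as `b (u-v) = b' v - b v`). If `u > 1` the lower bound is `NN_nonneg`, and for the upper bound
  use `b'' = x/2` with `b ≤ b'' ` and `NN b'' x = 0 = NN b x`.
-/

set_option autoImplicit false

namespace Pool.Agent.Helper1.DL

theorem rho_nonneg (b x : ℝ) : 0 ≤ rho b x := by
  unfold rho
  have := Real.arccos_nonneg (x / (2 * b))
  positivity

theorem rho_le_half {b x : ℝ} (hb : 0 < b) (hx : 0 ≤ x) : rho b x ≤ 1 / 2 := by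
  unfold rho
  have h1 : Real.arccos (x / (2 * b)) ≤ Real.pi / 2 := Real.arccos_le_pi_div_two.2 (by positivity)
  rw [div_le_iff₀ Real.pi_pos]
  linarith

theorem continuous_rho (b : ℝ) : Continuous (rho b) := by
  unfold rho
  exact (Real.continuous_arccos.comp (continuous_id.div_const _)).div_const _

theorem continuous_NN (b : ℝ) : Continuous (NN b) := by
  unfold NN
  have h1 : Continuous fun x : ℝ => x / (2 * b) := continuous_id.div_const _
  exact continuous_const.mul ((Real.continuous_sqrt.comp (continuous_const.sub (h1.pow 2))).sub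
    (h1.mul (Real.continuous_arccos.comp h1)))

theorem NN_zero (b : ℝ) : NN b 0 = 2 * b / Real.pi := by
  unfold NN
  simp

theorem NN_eq_zero {b x : ℝ} (hb : 0 < b) (hx : 2 * b ≤ x) : NN b x = 0 := by
  have h1 : 1 ≤ x / (2 * b) := by
    rw [le_div_iff₀ (by positivity)]
    linarith
  unfold NN
  rw [Real.arccos_eq_zero.2 h1, Real.sqrt_eq_zero_of_nonpos (by nlinarith)]
  ring

private noncomputable def phi68 (u : ℝ) : ℝ := Real.sqrt (1 - u ^ 2) - u * Real.arccos u

private theorem hasDerivAt_phi68 {u : ℝ} (h1 : -1 < u) (h2 : u < 1) : HasDerivAt phi68 (-Real.arccos u) u := by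
  have h3 : 0 < 1 - u ^ 2 := by nlinarith
  have h4 : HasDerivAt (fun u : ℝ => 1 - u ^ 2) (-(2 * u)) u := by
    have := (hasDerivAt_pow 2 u).const_sub 1
    simpa using this
  have h5 := h4.sqrt h3.ne'
  have h6 := (hasDerivAt_id u).mul (Real.hasDerivAt_arccos h1.ne' h2.ne)
  have h7 := h5.sub h6
  have h8 : -(2 * u) / (2 * Real.sqrt (1 - u ^ 2)) - (1 * Real.arccos u + id u * -(1 / Real.sqrt (1 - u ^ 2))) =
      -Real.arccos u := by
    have h9 : Real.sqrt (1 - u ^ 2) ≠ 0 := (Real.sqrt_pos.2 h3).ne'
    rw [id]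
    field_simp
    ring
  rw [h8] at h7
  exact h7

private theorem phi_conv68 {v u : ℝ} (hv : 0 ≤ v) (hvu : v ≤ u) (hu : u ≤ 1) :
    phi68 u + (u - v) * Real.arccos u ≤ phi68 v ∧ phi68 v - (u - v) * Real.arccos v ≤ phi68 u := by
  have hcont : Continuous phi68 := by
    unfold phi68
    exact (Real.continuous_sqrt.comp (continuous_const.sub (continuous_id.pow 2))).sub
      (continuous_id.mul Real.continuous_arccos)
  have hd : ∀ z ∈ interior (Set.Icc v u), HasDerivAt phi68 (-Real.arccos z) z := by
    intro z hz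
    rw [interior_Icc] at hz
    exact hasDerivAt_phi68 (by linarith [hz.1]) (by linarith [hz.2])
  have h1 := (convex_Icc v u).mul_sub_le_image_sub_of_le_deriv (f := phi68) hcont.continuousOn
    (fun z hz => (hd z hz).differentiableAt.differentiableWithinAt) (C := -Real.arccos v)
    (fun z hz => by
      rw [(hd z hz).deriv]
      rw [interior_Icc] at hz
      have := Real.antitone_arccos hz.1.le
      linarith) v (Set.left_mem_Icc.2 hvu) u (Set.right_mem_Icc.2 hvu) hvu
  have h2 := (convex_Icc v u).image_sub_le_mul_sub_of_deriv_le (f := phi68) hcont.continuousOn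
    (fun z hz => (hd z hz).differentiableAt.differentiableWithinAt) (C := -Real.arccos u)
    (fun z hz => by
      rw [(hd z hz).deriv]
      rw [interior_Icc] at hz
      have := Real.antitone_arccos hz.2.le
      linarith) v (Set.left_mem_Icc.2 hvu) u (Set.right_mem_Icc.2 hvu) hvu
  constructor <;> linarith

theorem hasDerivAt_NN {b x : ℝ} (hb : 0 < b) (h1 : -(2 * b) < x) (h2 : x < 2 * b) :
    HasDerivAt (NN b) (-rho b x) x := by
  have h3 : -1 < x / (2 * b) := by
    rw [lt_div_iff₀ (by positivity)]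
    linarith
  have h4 : x / (2 * b) < 1 := by
    rw [div_lt_iff₀ (by positivity)]
    linarith
  have h5 : HasDerivAt (fun x : ℝ => x / (2 * b)) (1 / (2 * b)) x := (hasDerivAt_id x).div_const _
  have h6 := (HasDerivAt.comp x (hasDerivAt_phi68 h3 h4) h5).const_mul (2 * b / Real.pi)
  have h7 : 2 * b / Real.pi * (-Real.arccos (x / (2 * b)) * (1 / (2 * b))) = -rho b x := by
    unfold rho
    have := Real.pi_pos
    field_simp
  rw [h7] at h6
  exact h6

theorem NN_sub {b x y : ℝ} (hb : 0 < b) (hx : 0 ≤ x) (hxy : x ≤ y) :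
    0 ≤ NN b x - NN b y ∧ NN b x - NN b y ≤ (y - x) / 2 := by
  have key : ∀ x y : ℝ, 0 ≤ x → x ≤ y → y ≤ 2 * b → 0 ≤ NN b x - NN b y ∧ NN b x - NN b y ≤ (y - x) / 2 := by
    intro x y hx hxy hy
    have hd : ∀ z ∈ interior (Set.Icc x y), HasDerivAt (NN b) (-rho b z) z := by
      intro z hz
      rw [interior_Icc] at hz
      exact hasDerivAt_NN hb (by linarith [hz.1]) (by linarith [hz.2])
    have h1 := (convex_Icc x y).mul_sub_le_image_sub_of_le_deriv (f := NN b) (continuous_NN b).continuousOn
      (fun z hz => (hd z hz).differentiableAt.differentiableWithinAt) (C := -(1 / 2))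
      (fun z hz => by
        rw [(hd z hz).deriv]
        rw [interior_Icc] at hz
        have := rho_le_half hb (by linarith [hz.1] : 0 ≤ z)
        linarith) x (Set.left_mem_Icc.2 hxy) y (Set.right_mem_Icc.2 hxy) hxy
    have h2 := (convex_Icc x y).image_sub_le_mul_sub_of_deriv_le (f := NN b) (continuous_NN b).continuousOn
      (fun z hz => (hd z hz).differentiableAt.differentiableWithinAt) (C := 0)
      (fun z hz => by
        rw [(hd z hz).deriv]
        have := rho_nonneg b z
        linarith) x (Set.left_mem_Icc.2 hxy) y (Set.right_mem_Icc.2 hxy) hxy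
    constructor <;> linarith
  rcases le_or_gt y (2 * b) with hy | hy
  · exact key x y hx hxy hy
  rcases le_or_gt x (2 * b) with hx2 | hx2
  · have h1 := key x (2 * b) hx hx2 le_rfl
    rw [NN_eq_zero hb le_rfl] at h1
    rw [NN_eq_zero hb hy.le]
    constructor
    · exact h1.1
    · linarith [h1.2]
  · rw [NN_eq_zero hb hy.le, NN_eq_zero hb hx2.le]
    constructor <;> linarith

theorem NN_nonneg {b x : ℝ} (hb : 0 < b) (hx : 0 ≤ x) : 0 ≤ NN b x := by
  have h1 := (NN_sub hb hx (le_max_left x (2 * b))).1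
  rw [NN_eq_zero hb (le_max_right x (2 * b))] at h1
  linarith

theorem NN_mono {b b' x : ℝ} (hb : 0 < b) (hbb : b ≤ b') (hx : 0 ≤ x) :
    0 ≤ NN b' x - NN b x ∧ NN b' x - NN b x ≤ b' - b := by
  have key : ∀ c : ℝ, 0 < c → c ≤ b' → x ≤ 2 * c → 0 ≤ NN b' x - NN c x ∧ NN b' x - NN c x ≤ b' - c := by
    intro c hc hcb hxc
    have hb' : 0 < b' := hc.trans_le hcb
    set u := x / (2 * c) with hu
    set v := x / (2 * b') with hv
    have hu0 : 0 ≤ u := by positivity
    have hv0 : 0 ≤ v := by positivity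
    have hu1 : u ≤ 1 := by
      rw [hu, div_le_iff₀ (by positivity)]
      linarith
    have huc : c * u = x / 2 := by
      rw [hu]
      field_simp
    have hvb : b' * v = x / 2 := by
      rw [hv]
      field_simp
    have hvu : v ≤ u := by
      rw [hu, hv]
      exact div_le_div_of_nonneg_left hx (by positivity) (by linarith)
    obtain ⟨h1, h2⟩ := phi_conv68 hv0 hvu hu1
    have hsu := Real.sqrt_nonneg (1 - u ^ 2)
    have hsv : Real.sqrt (1 - v ^ 2) ≤ 1 := by
      rw [Real.sqrt_le_one]
      nlinarith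
    have hau := Real.arccos_nonneg u
    have hav := Real.arccos_nonneg v
    have h3 : 0 ≤ b' * phi68 v - c * phi68 u := by
      have h4 : b' * (phi68 u + (u - v) * Real.arccos u) ≤ b' * phi68 v := mul_le_mul_of_nonneg_left h1 hb'.le
      have h5 : b' * (phi68 u + (u - v) * Real.arccos u) - c * phi68 u = (b' - c) * Real.sqrt (1 - u ^ 2) := by
        have h6 : b' * (u - v) = (b' - c) * u := by linarith
        have h7 : b' * (phi68 u + (u - v) * Real.arccos u) - c * phi68 u =
            (b' - c) * phi68 u + (b' * (u - v)) * Real.arccos u := by ring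
        rw [h7, h6]
        unfold phi68
        ring
      have h8 : 0 ≤ (b' - c) * Real.sqrt (1 - u ^ 2) := mul_nonneg (by linarith) hsu
      linarith
    have h9 : b' * phi68 v - c * phi68 u ≤ b' - c := by
      have h4 : c * (phi68 v - (u - v) * Real.arccos v) ≤ c * phi68 u := mul_le_mul_of_nonneg_left (by linarith) hc.le
      have h5 : b' * phi68 v - c * (phi68 v - (u - v) * Real.arccos v) = (b' - c) * Real.sqrt (1 - v ^ 2) := by
        have h6 : c * (u - v) = (b' - c) * v := by linarith
        have h7 : b' * phi68 v - c * (phi68 v - (u - v) * Real.arccos v) =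
            (b' - c) * phi68 v + (c * (u - v)) * Real.arccos v := by ring
        rw [h7, h6]
        unfold phi68
        ring
      have h8 : (b' - c) * Real.sqrt (1 - v ^ 2) ≤ (b' - c) * 1 := mul_le_mul_of_nonneg_left hsv (by linarith)
      linarith
    have h10 : NN b' x - NN c x = 2 / Real.pi * (b' * phi68 v - c * phi68 u) := by
      unfold NN phi68
      rw [← hu, ← hv]
      ring
    rw [h10]
    have h11 : 0 < 2 / Real.pi := by positivity
    have h12 : 2 / Real.pi ≤ 1 := by
      rw [div_le_one Real.pi_pos]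
      exact Real.two_le_pi
    constructor
    · positivity
    · nlinarith
  rcases le_or_gt x (2 * b) with h1 | h1
  · exact key b hb hbb h1
  · rw [NN_eq_zero hb h1.le]
    rcases le_or_gt (2 * b') x with h2 | h2
    · rw [NN_eq_zero (hb.trans_le hbb) h2]
      constructor <;> linarith
    · have h3 := key (x / 2) (by linarith) (by linarith) (by linarith)
      rw [NN_eq_zero (b := x / 2) (by linarith) (by linarith)] at h3
      constructor
      · exact h3.1
      · linarith [h3.2]

end Pool.Agent.Helper1.DL
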