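import Pool.Agent.Helper1.DL.Arc1

/-!
BLOCK DL-N2 (about 100 lines; real analysis only). The integral of `NN` and a Riemann sum.

Proof in words. With `u = x/2b`, an antiderivative of `NN b` on `(-2b, 2b)` is `(4b²/π) P(u)`, `P(u) = (3/4) u √(1-u²) + (1/4) arcsin u - (1/2) u² arccos u`
(`P' = √(1-u²) - u arccos u`), continuous on `[0, 2b]`, `P(0) = 0`, `P(1) = π/8`: the integral is `(4b²/π)(π/8) = b²/2` (`intervalIntegral.integral_eq_sub_of_hasDerivAt_of_le` with
continuity at the end point, `Real.arccos = π/2 - arcsin`).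
`sum_NN`: `NN` is antitone on `[0, ∞)`, nonnegative, `0` on `[2b, ∞)`. `∑_{x=1}^X NN x ≤ ∫_0^X NN = ∫_0^{2b} NN = b²/2` and `∑_{x=1}^X NN x ≥ ∫_1^{X+1} NN = b²/2 - ∫_0^1 NN ≥ b²/2 - NN 0 = b²/2 - 2b/π ≥ b²/2 - b`
(`AntitoneOn.sum_le_integral`, `AntitoneOn.integral_le_sum`).
-/

set_option autoImplicit false

open MeasureTheory

namespace Pool.Agent.Helper1.DL

private noncomputable def P93 (u : ℝ) : ℝ :=
  3 / 4 * (u * Real.sqrt (1 - u ^ 2)) + 1 / 4 * Real.arcsin u - 1 / 2 * (u ^ 2 * Real.arccos u)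

private theorem continuous_P93 : Continuous P93 := by
  unfold P93
  have h1 : Continuous fun u : ℝ => Real.sqrt (1 - u ^ 2) :=
    Real.continuous_sqrt.comp (continuous_const.sub (continuous_id.pow 2))
  exact ((continuous_const.mul (continuous_id.mul h1)).add (continuous_const.mul Real.continuous_arcsin)).sub
    (continuous_const.mul ((continuous_id.pow 2).mul Real.continuous_arccos))

private theorem hasDerivAt_P93 {u : ℝ} (h1 : -1 < u) (h2 : u < 1) :
    HasDerivAt P93 (Real.sqrt (1 - u ^ 2) - u * Real.arccos u) u := by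
  have h3 : 0 < 1 - u ^ 2 := by nlinarith
  have h4 : HasDerivAt (fun u : ℝ => 1 - u ^ 2) (-(2 * u)) u := by
    have := (hasDerivAt_pow 2 u).const_sub 1
    simpa using this
  have h5 := ((hasDerivAt_id u).mul (h4.sqrt h3.ne')).const_mul (3 / 4)
  have h6 := (Real.hasDerivAt_arcsin h1.ne' h2.ne).const_mul (1 / 4)
  have h7 := ((hasDerivAt_pow 2 u).mul (Real.hasDerivAt_arccos h1.ne' h2.ne)).const_mul (1 / 2)
  have h8 := (h5.add h6).sub h7
  refine h8.congr_deriv ?_
  have h9 : Real.sqrt (1 - u ^ 2) ≠ 0 := (Real.sqrt_pos.2 h3).ne'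
  have h10 : Real.sqrt (1 - u ^ 2) ^ 2 = 1 - u ^ 2 := Real.sq_sqrt h3.le
  simp only [id]
  field_simp
  push_cast
  nlinarith [h10]

theorem integral_NN {b : ℝ} (hb : 0 < b) : ∫ x in (0 : ℝ)..(2 * b), NN b x = b ^ 2 / 2 := by
  have hpi := Real.pi_pos
  have hcont : Continuous fun x : ℝ => 4 * b ^ 2 / Real.pi * P93 (x / (2 * b)) :=
    continuous_const.mul (continuous_P93.comp (continuous_id.div_const _))
  have hd : ∀ x ∈ Set.Ioo (0 : ℝ) (2 * b), HasDerivAt (fun x : ℝ => 4 * b ^ 2 / Real.pi * P93 (x / (2 * b))) (NN b x) x := by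
    intro x hx
    have h3 : -1 < x / (2 * b) := by
      rw [lt_div_iff₀ (by positivity)]
      linarith [hx.1]
    have h4 : x / (2 * b) < 1 := by
      rw [div_lt_iff₀ (by positivity)]
      linarith [hx.2]
    have h5 : HasDerivAt (fun x : ℝ => x / (2 * b)) (1 / (2 * b)) x := (hasDerivAt_id x).div_const _
    have h6 := (HasDerivAt.comp x (hasDerivAt_P93 h3 h4) h5).const_mul (4 * b ^ 2 / Real.pi)
    refine h6.congr_deriv ?_
    unfold NN
    field_simp
    ring
  rw [intervalIntegral.integral_eq_sub_of_hasDerivAt_of_le (by positivity) hcont.continuousOn hd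
    ((continuous_NN b).intervalIntegrable _ _)]
  have h1 : (2 * b) / (2 * b) = 1 := div_self (by positivity)
  simp only [h1, zero_div]
  unfold P93
  rw [Real.arcsin_one, Real.arccos_one]
  simp only [Real.arcsin_zero]
  norm_num
  field_simp

private theorem sum_Icc93 (f : ℕ → ℝ) (X : ℕ) : ∑ x ∈ Finset.Icc 1 X, f x = ∑ i ∈ Finset.range X, f (i + 1) := by
  induction X with
  | zero => simp
  | succ n ih => rw [Finset.sum_Icc_succ_top (by omega), ih, Finset.sum_range_succ]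

theorem sum_NN {b : ℝ} (hb : 0 < b) (X : ℕ) (hX : 2 * b ≤ X) :
    |∑ x ∈ Finset.Icc 1 X, NN b (x : ℝ) - b ^ 2 / 2| ≤ b := by
  have hanti : AntitoneOn (NN b) (Set.Icc (0 : ℝ) (0 + X)) := by
    intro x hx y _ hxy
    have := (NN_sub hb hx.1 hxy).1
    linarith
  have hint : ∫ x in (0 : ℝ)..(0 + X), NN b x = b ^ 2 / 2 := by
    rw [zero_add, ← intervalIntegral.integral_add_adjacent_intervals
      ((continuous_NN b).intervalIntegrable 0 (2 * b)) ((continuous_NN b).intervalIntegrable (2 * b) X), integral_NN hb]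
    have h1 : ∫ x in (2 * b)..(X : ℝ), NN b x = ∫ x in (2 * b)..(X : ℝ), (0 : ℝ) := by
      refine intervalIntegral.integral_congr fun x hx => ?_
      rw [Set.uIcc_of_le hX] at hx
      exact NN_eq_zero hb hx.1
    rw [h1, intervalIntegral.integral_zero, add_zero]
  have h1 := hanti.sum_le_integral
  have h2 := hanti.integral_le_sum
  rw [hint] at h1 h2
  simp only [zero_add] at h1 h2
  have h3 : ∑ x ∈ Finset.Icc 1 X, NN b (x : ℝ) = ∑ i ∈ Finset.range X, NN b ((i + 1 : ℕ) : ℝ) :=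
    sum_Icc93 (fun x => NN b (x : ℝ)) X
  have h4 : ∑ i ∈ Finset.range X, NN b ((i + 1 : ℕ) : ℝ) + NN b ((0 : ℕ) : ℝ) =
      ∑ i ∈ Finset.range X, NN b (i : ℝ) + NN b (X : ℝ) := by
    rw [← Finset.sum_range_succ (fun i : ℕ => NN b (i : ℝ)) X, Finset.sum_range_succ' (fun i : ℕ => NN b (i : ℝ)) X]
  rw [NN_eq_zero hb hX, Nat.cast_zero, NN_zero] at h4
  have h5 : 2 * b / Real.pi ≤ b := by
    rw [div_le_iff₀ Real.pi_pos]
    nlinarith [Real.two_le_pi]
  rw [h3, abs_le]
  constructor <;> linarith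

end Pool.Agent.Helper1.DL
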