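import Pool.Agent.Helper1.DL.Arc1

/-!
BLOCK DL-G2 (about 180 lines; analysis only). Sum versus integral.

Proof in words. `b = √n`, `z = b (w + 1/w)`, `|w| ≥ ρ`.
* `dist_ge`: for real `x` with `|x| ≤ 2b + C`: `|z - x| ≥ b (ρ-1)²/(2ρ)` as soon as `C ≤ b (ρ-1)²/(2ρ)`: for `|x| ≤ 2b` write `x = 2b cos θ`, `z - x = (b/w)(w - e^{iθ})(w - e^{-iθ})`, so
  `|z - x| ≥ b (|w|-1)²/|w| ≥ b (ρ-1)²/ρ` (`t ↦ (t-1)²/t = t + 1/t - 2` is increasing for `t ≥ 1`); for `2b < |x| ≤ 2b + C` compare with `x = ± 2b`.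
* `g x = 2x/(z² - x²)`, `g 0 = 0`, `g' x = 2/(z²-x²) + 4x²/(z²-x²)²`, so `|g'| ≤ K₁/b²` on `[0, 2b + C]` (`z² - x² = (z-x)(z+x)`, both factors by `dist_ge`).
* `Y = 2b + C`. For `a ≤ Y`: `g a = ∫_0^a g' = ∫_0^Y g' x · [x ≤ a] dx`, so `∑_{a ∈ A} g a = ∫_0^Y g' x · cge A x dx` (`top`).
* integration by parts with `NN' = - rho` on `(0, 2b)`, `NN (2b) = 0`, `g 0 = 0` (`hasDerivAt_NN`, `continuous_NN`; `intervalIntegral.integral_mul_deriv_eq_deriv_mul..` versions with continuity on the closed interval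
  and derivatives inside, or the fundamental theorem for `g · NN`): `∫_0^{2b} g rho = ∫_0^{2b} g' NN = ∫_0^Y g' NN` (`NN = 0` on `[2b, Y]`).
* the difference is at most `∫_0^Y |g'| C ≤ C Y K₁/b² ≤ K/b` for `b ≥ max C 1`.
-/

set_option autoImplicit false

open MeasureTheory

namespace Pool.Agent.Helper1.DL

private theorem near_aux {b ρ : ℝ} (hb : 0 < b) (hρ : 1 < ρ) {w : ℂ} (hw : ρ ≤ ‖w‖) {c : ℝ} (hc : |c| ≤ 1) :
    b * ((ρ - 1) ^ 2 / ρ) ≤ ‖(b : ℂ) * (w + w⁻¹) - ((2 * b * c : ℝ) : ℂ)‖ := by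
  have hw1 : 1 < ‖w‖ := lt_of_lt_of_le hρ hw
  have hw0 : w ≠ 0 := by
    intro h
    rw [h, norm_zero] at hw1
    linarith
  obtain ⟨s, hs⟩ : ∃ s, s = Real.sqrt (1 - c ^ 2) := ⟨_, rfl⟩
  have hc2 : c ^ 2 ≤ 1 := by
    rw [← sq_abs]
    nlinarith [abs_nonneg c]
  have hs2 : s ^ 2 = 1 - c ^ 2 := by
    rw [hs, Real.sq_sqrt (by linarith)]
  have hne : ∀ t : ℝ, t ^ 2 = 1 - c ^ 2 → ‖((c : ℂ) + (t : ℂ) * Complex.I)‖ = 1 := by
    intro t ht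
    have h1 : ‖((c : ℂ) + (t : ℂ) * Complex.I)‖ ^ 2 = 1 := by
      rw [← Complex.normSq_eq_norm_sq, Complex.normSq_add_mul_I]
      linarith
    nlinarith [norm_nonneg ((c : ℂ) + (t : ℂ) * Complex.I)]
  have e1 : (b : ℂ) * (w + w⁻¹) - ((2 * b * c : ℝ) : ℂ) =
      (b : ℂ) * ((w - ((c : ℂ) + (s : ℂ) * Complex.I)) * (w - ((c : ℂ) + ((-s : ℝ) : ℂ) * Complex.I))) / w := by
    have h2 : ((s : ℂ)) ^ 2 = 1 - (c : ℂ) ^ 2 := by exact_mod_cast congrArg (fun r : ℝ => (r : ℂ)) hs2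
    have h3 : (w - ((c : ℂ) + (s : ℂ) * Complex.I)) * (w - ((c : ℂ) + ((-s : ℝ) : ℂ) * Complex.I)) =
        w ^ 2 - 2 * c * w + 1 := by
      push_cast
      have hI := Complex.I_sq
      linear_combination (1 : ℂ) * h2 - (s : ℂ) ^ 2 * hI
    rw [h3]
    push_cast
    field_simp
    ring
  have k1 : ‖w‖ - 1 ≤ ‖w - ((c : ℂ) + (s : ℂ) * Complex.I)‖ := by
    have := norm_sub_norm_le w ((c : ℂ) + (s : ℂ) * Complex.I)
    rwa [hne s hs2] at this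
  have k2 : ‖w‖ - 1 ≤ ‖w - ((c : ℂ) + ((-s : ℝ) : ℂ) * Complex.I)‖ := by
    have := norm_sub_norm_le w ((c : ℂ) + ((-s : ℝ) : ℂ) * Complex.I)
    rwa [hne (-s) (by rw [neg_sq, hs2])] at this
  rw [e1, norm_div, norm_mul, norm_mul, Complex.norm_real, Real.norm_eq_abs, abs_of_pos hb, mul_div_assoc]
  refine mul_le_mul_of_nonneg_left ?_ hb.le
  have hr : 0 < ‖w‖ := by linarith
  have k3 : (‖w‖ - 1) * (‖w‖ - 1) ≤ ‖w - ((c : ℂ) + (s : ℂ) * Complex.I)‖ *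
      ‖w - ((c : ℂ) + ((-s : ℝ) : ℂ) * Complex.I)‖ :=
    mul_le_mul k1 k2 (by linarith) (norm_nonneg _)
  have k4 : (ρ - 1) ^ 2 / ρ ≤ (‖w‖ - 1) * (‖w‖ - 1) / ‖w‖ := by
    rw [div_le_div_iff₀ (by linarith) hr]
    nlinarith [mul_nonneg (sub_nonneg.2 hw) (sub_nonneg.2 (show (1:ℝ) ≤ ρ * ‖w‖ by nlinarith))]
  exact k4.trans (div_le_div_of_nonneg_right k3 hr.le)

theorem dist_ge {b ρ C : ℝ} (hb : 0 < b) (hρ : 1 < ρ) (hC : C ≤ b * ((ρ - 1) ^ 2 / (2 * ρ))) {w : ℂ} (hw : ρ ≤ ‖w‖)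
    {x : ℝ} (hx : |x| ≤ 2 * b + C) : b * ((ρ - 1) ^ 2 / (2 * ρ)) ≤ ‖(b : ℂ) * (w + w⁻¹) - (x : ℂ)‖ := by
  have hδ : 0 ≤ (ρ - 1) ^ 2 / (2 * ρ) := by positivity
  have h2 : (ρ - 1) ^ 2 / ρ = 2 * ((ρ - 1) ^ 2 / (2 * ρ)) := by
    field_simp
  obtain ⟨c, hc, hcx⟩ : ∃ c : ℝ, |c| ≤ 1 ∧ |2 * b * c - x| ≤ b * ((ρ - 1) ^ 2 / (2 * ρ)) := by
    have hbd : 0 ≤ b * ((ρ - 1) ^ 2 / (2 * ρ)) := mul_nonneg hb.le hδ
    rw [abs_le] at hx
    rcases le_total x (-(2 * b)) with h | h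
    · refine ⟨-1, by simp, ?_⟩
      rw [abs_le]
      constructor <;> linarith
    rcases le_total x (2 * b) with h' | h'
    · refine ⟨x / (2 * b), ?_, ?_⟩
      · rw [abs_div, abs_of_pos (show 0 < 2 * b by linarith), div_le_one (by linarith), abs_le]
        exact ⟨h, h'⟩
      · rw [mul_div_cancel₀ _ (by positivity), sub_self, abs_zero]
        exact hbd
    · refine ⟨1, by simp, ?_⟩
      rw [abs_le]
      constructor <;> linarith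
  have h3 := near_aux hb hρ hw hc
  rw [h2] at h3
  have h4 : ‖(b : ℂ) * (w + w⁻¹) - ((2 * b * c : ℝ) : ℂ)‖ ≤
      ‖(b : ℂ) * (w + w⁻¹) - (x : ℂ)‖ + |2 * b * c - x| := by
    have e : (b : ℂ) * (w + w⁻¹) - ((2 * b * c : ℝ) : ℂ) =
        ((b : ℂ) * (w + w⁻¹) - (x : ℂ)) - ((2 * b * c - x : ℝ) : ℂ) := by
      push_cast
      ring
    rw [e]
    refine (norm_sub_le _ _).trans (le_of_eq ?_)
    rw [Complex.norm_real, Real.norm_eq_abs]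
  linarith

private theorem nz_aux {z : ℂ} {Y δ : ℝ} (hδ : 0 < δ) (h : ∀ x : ℝ, |x| ≤ Y → δ ≤ ‖z - (x : ℂ)‖) {x : ℝ}
    (hx : |x| ≤ Y) : δ ^ 2 ≤ ‖z ^ 2 - (x : ℂ) ^ 2‖ := by
  have h1 := h x hx
  have h2 := h (-x) (by rwa [abs_neg])
  have e : z ^ 2 - (x : ℂ) ^ 2 = (z - (x : ℂ)) * (z - ((-x : ℝ) : ℂ)) := by
    push_cast
    ring
  rw [e, norm_mul]
  nlinarith [norm_nonneg (z - (x : ℂ))]

/-- the derivative of `2x/(z² - x²)` -/
private noncomputable def gp (z : ℂ) (x : ℝ) : ℂ :=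
  (2 * (z ^ 2 - (x : ℂ) ^ 2) - 2 * (x : ℂ) * (-(2 * (x : ℂ)))) / (z ^ 2 - (x : ℂ) ^ 2) ^ 2

private theorem hd_aux {z : ℂ} {x : ℝ} (h : z ^ 2 - (x : ℂ) ^ 2 ≠ 0) :
    HasDerivAt (fun x : ℝ => 2 * (x : ℂ) / (z ^ 2 - (x : ℂ) ^ 2)) (gp z x) x := by
  have h0 : HasDerivAt (fun x : ℝ => (x : ℂ)) 1 x := (hasDerivAt_id x).ofReal_comp
  have h1 : HasDerivAt (fun x : ℝ => 2 * (x : ℂ)) (2 * 1) x := h0.const_mul 2
  have h2 : HasDerivAt (fun x : ℝ => z ^ 2 - (x : ℂ) ^ 2) (-(2 * (x : ℂ))) x := by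
    have := (h0.pow 2).const_sub (z ^ 2)
    simpa using this
  have h3 := h1.fun_div h2 h
  refine h3.congr_deriv ?_
  unfold gp
  ring

private theorem gp_le {z : ℂ} {Y δ : ℝ} (hδ : 0 < δ) (h : ∀ x : ℝ, |x| ≤ Y → δ ≤ ‖z - (x : ℂ)‖) {x : ℝ}
    (hx : |x| ≤ Y) : ‖gp z x‖ ≤ 2 / δ ^ 2 + 4 * Y ^ 2 / δ ^ 4 := by
  have h1 := nz_aux hδ h hx
  have h2 : 0 < ‖z ^ 2 - (x : ℂ) ^ 2‖ := lt_of_lt_of_le (by positivity) h1
  have h3 : z ^ 2 - (x : ℂ) ^ 2 ≠ 0 := norm_pos_iff.1 h2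
  have e : gp z x = 2 / (z ^ 2 - (x : ℂ) ^ 2) + 4 * (x : ℂ) ^ 2 / (z ^ 2 - (x : ℂ) ^ 2) ^ 2 := by
    unfold gp
    field_simp
    ring
  rw [e]
  refine (norm_add_le _ _).trans (add_le_add ?_ ?_)
  · rw [norm_div, Complex.norm_ofNat]
    exact div_le_div_of_nonneg_left (by norm_num) (by positivity) h1
  · rw [norm_div, norm_mul, norm_pow, norm_pow, Complex.norm_real, Complex.norm_ofNat, Real.norm_eq_abs]
    have hY : 0 ≤ Y := (abs_nonneg x).trans hx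
    have h4 : δ ^ 4 ≤ ‖z ^ 2 - (x : ℂ) ^ 2‖ ^ 2 := by
      calc δ ^ 4 = (δ ^ 2) ^ 2 := by ring
        _ ≤ _ := by gcongr
    exact div_le_div₀ (by positivity) (by gcongr) (by positivity) h4

private theorem gp_cont {z : ℂ} {Y δ : ℝ} (hδ : 0 < δ) (h : ∀ x : ℝ, |x| ≤ Y → δ ≤ ‖z - (x : ℂ)‖) :
    ContinuousOn (gp z) (Set.Icc 0 Y) := by
  unfold gp
  have hc : ContinuousOn (fun x : ℝ => (x : ℂ)) (Set.Icc 0 Y) := Complex.continuous_ofReal.continuousOn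
  refine ContinuousOn.div ?_ ?_ ?_
  · fun_prop
  · fun_prop
  · intro x hx
    have h1 := nz_aux hδ h (x := x) (by rw [abs_of_nonneg hx.1]; exact hx.2)
    exact pow_ne_zero _ (norm_pos_iff.1 (lt_of_lt_of_le (by positivity) h1))

private theorem step_aux {z : ℂ} {Y δ : ℝ} (hδ : 0 < δ) (h : ∀ x : ℝ, |x| ≤ Y → δ ≤ ‖z - (x : ℂ)‖) {a : ℝ}
    (ha : 0 ≤ a) (haY : a ≤ Y) :
    IntervalIntegrable (fun x => gp z x * (if x ≤ a then (1 : ℂ) else 0)) volume 0 Y ∧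
    ∫ x in (0 : ℝ)..Y, gp z x * (if x ≤ a then (1 : ℂ) else 0) = 2 * (a : ℂ) / (z ^ 2 - (a : ℂ) ^ 2) := by
  have hY : 0 ≤ Y := ha.trans haY
  have hgc := gp_cont hδ h
  have i1 : IntervalIntegrable (gp z) volume 0 a :=
    (hgc.mono (Set.Icc_subset_Icc_right haY)).intervalIntegrable_of_Icc ha
  have i2 : IntervalIntegrable (fun x => gp z x * (if x ≤ a then (1 : ℂ) else 0)) volume 0 a := by
    refine i1.congr fun x hx => ?_
    rw [Set.uIoc_of_le ha] at hx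
    simp [hx.2]
  have i3 : IntervalIntegrable (fun x => gp z x * (if x ≤ a then (1 : ℂ) else 0)) volume a Y := by
    refine (intervalIntegrable_const (c := (0 : ℂ))).congr fun x hx => ?_
    rw [Set.uIoc_of_le haY] at hx
    simp [not_le.2 hx.1]
  refine ⟨i2.trans i3, ?_⟩
  rw [← intervalIntegral.integral_add_adjacent_intervals i2 i3]
  have e1 : ∫ x in (0 : ℝ)..a, gp z x * (if x ≤ a then (1 : ℂ) else 0) = ∫ x in (0 : ℝ)..a, gp z x := by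
    refine intervalIntegral.integral_congr_ae (Filter.Eventually.of_forall fun x hx => ?_)
    rw [Set.uIoc_of_le ha] at hx
    simp [hx.2]
  have e2 : ∫ x in a..Y, gp z x * (if x ≤ a then (1 : ℂ) else 0) = ∫ x in a..Y, (0 : ℂ) := by
    refine intervalIntegral.integral_congr_ae (Filter.Eventually.of_forall fun x hx => ?_)
    rw [Set.uIoc_of_le haY] at hx
    simp [not_le.2 hx.1]
  rw [e1, e2, intervalIntegral.integral_zero, add_zero]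
  have e3 : ∫ x in (0 : ℝ)..a, gp z x =
      (fun x : ℝ => 2 * (x : ℂ) / (z ^ 2 - (x : ℂ) ^ 2)) a - (fun x : ℝ => 2 * (x : ℂ) / (z ^ 2 - (x : ℂ) ^ 2)) 0 := by
    refine intervalIntegral.integral_eq_sub_of_hasDerivAt (fun x hx => hd_aux ?_) i1
    rw [Set.uIcc_of_le ha] at hx
    have h1 := nz_aux hδ h (x := x) (by rw [abs_of_nonneg hx.1]; exact hx.2.trans haY)
    exact norm_pos_iff.1 (lt_of_lt_of_le (by positivity) h1)
  rw [e3]
  simp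

private theorem parts_aux {z : ℂ} {b Y δ : ℝ} (hb : 0 < b) (hY : 2 * b ≤ Y) (hδ : 0 < δ)
    (h : ∀ x : ℝ, |x| ≤ Y → δ ≤ ‖z - (x : ℂ)‖) :
    ∫ x in (0 : ℝ)..(2 * b), (2 * (x : ℂ) / (z ^ 2 - (x : ℂ) ^ 2)) * (rho b x : ℂ) =
      ∫ x in (0 : ℝ)..Y, gp z x * (NN b x : ℂ) := by
  have hb2 : 0 ≤ 2 * b := by linarith
  have hY0 : 0 ≤ Y := hb2.trans hY
  have hgc := gp_cont hδ h
  have hNc : Continuous fun x : ℝ => (NN b x : ℂ) := Complex.continuous_ofReal.comp (continuous_NN b)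
  have hrc : Continuous fun x : ℝ => (rho b x : ℂ) := Complex.continuous_ofReal.comp (continuous_rho b)
  have hnz : ∀ x ∈ Set.Icc 0 Y, z ^ 2 - (x : ℂ) ^ 2 ≠ 0 := by
    intro x hx
    have h1 := nz_aux hδ h (x := x) (by rw [abs_of_nonneg hx.1]; exact hx.2)
    exact norm_pos_iff.1 (lt_of_lt_of_le (by positivity) h1)
  have hGc : ContinuousOn (fun x : ℝ => 2 * (x : ℂ) / (z ^ 2 - (x : ℂ) ^ 2)) (Set.Icc 0 Y) := fun x hx =>
    (hd_aux (hnz x hx)).continuousAt.continuousWithinAt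
  have hsub : Set.Icc 0 (2 * b) ⊆ Set.Icc 0 Y := Set.Icc_subset_Icc_right hY
  have i1 : IntervalIntegrable (fun x => gp z x * (NN b x : ℂ)) volume 0 (2 * b) :=
    ((hgc.mono hsub).mul hNc.continuousOn).intervalIntegrable_of_Icc hb2
  have i2 : IntervalIntegrable (fun x => gp z x * (NN b x : ℂ)) volume (2 * b) Y :=
    ((hgc.mono (Set.Icc_subset_Icc_left hb2)).mul hNc.continuousOn).intervalIntegrable_of_Icc hY
  have i3 : IntervalIntegrable (fun x : ℝ => (2 * (x : ℂ) / (z ^ 2 - (x : ℂ) ^ 2)) * (rho b x : ℂ)) volume 0 (2 * b) :=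
    ((hGc.mono hsub).mul hrc.continuousOn).intervalIntegrable_of_Icc hb2
  have e0 : ∫ x in (2 * b)..Y, gp z x * (NN b x : ℂ) = 0 := by
    have : ∫ x in (2 * b)..Y, gp z x * (NN b x : ℂ) = ∫ x in (2 * b)..Y, (0 : ℂ) := by
      refine intervalIntegral.integral_congr_ae (Filter.Eventually.of_forall fun x hx => ?_)
      rw [Set.uIoc_of_le hY] at hx
      simp [NN_eq_zero hb hx.1.le]
    rw [this, intervalIntegral.integral_zero]
  rw [← intervalIntegral.integral_add_adjacent_intervals i1 i2, e0, add_zero]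
  have key : ∫ x in (0 : ℝ)..(2 * b), (gp z x * (NN b x : ℂ) +
      (2 * (x : ℂ) / (z ^ 2 - (x : ℂ) ^ 2)) * (-(rho b x : ℂ))) =
      (fun x : ℝ => (2 * (x : ℂ) / (z ^ 2 - (x : ℂ) ^ 2)) * (NN b x : ℂ)) (2 * b) -
      (fun x : ℝ => (2 * (x : ℂ) / (z ^ 2 - (x : ℂ) ^ 2)) * (NN b x : ℂ)) 0 := by
    refine intervalIntegral.integral_eq_sub_of_hasDerivAt_of_le
      (f := fun x : ℝ => (2 * (x : ℂ) / (z ^ 2 - (x : ℂ) ^ 2)) * (NN b x : ℂ))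
      (f' := fun x : ℝ => gp z x * (NN b x : ℂ) + (2 * (x : ℂ) / (z ^ 2 - (x : ℂ) ^ 2)) * (-(rho b x : ℂ)))
      hb2 ?_ ?_ ?_
    · exact (hGc.mono hsub).mul hNc.continuousOn
    · intro x hx
      have h1 := hd_aux (hnz x (hsub ⟨hx.1.le, hx.2.le⟩))
      have h2 : HasDerivAt (fun x : ℝ => (NN b x : ℂ)) ((-rho b x : ℝ) : ℂ) x :=
        (hasDerivAt_NN hb (by linarith [hx.1]) hx.2).ofReal_comp
      refine (h1.fun_mul h2).congr_deriv ?_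
      push_cast
      ring
    · refine i1.add ?_
      have := i3.neg
      refine this.congr fun x _ => ?_
      simp
  have e1 : NN b (2 * b) = 0 := NN_eq_zero hb le_rfl
  have e2 : ∫ x in (0 : ℝ)..(2 * b), (gp z x * (NN b x : ℂ) +
      (2 * (x : ℂ) / (z ^ 2 - (x : ℂ) ^ 2)) * (-(rho b x : ℂ))) =
      (∫ x in (0 : ℝ)..(2 * b), gp z x * (NN b x : ℂ)) -
      ∫ x in (0 : ℝ)..(2 * b), (2 * (x : ℂ) / (z ^ 2 - (x : ℂ) ^ 2)) * (rho b x : ℂ) := by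
    rw [← intervalIntegral.integral_sub i1 i3]
    refine intervalIntegral.integral_congr fun x _ => ?_
    ring
  rw [e2] at key
  simp only [e1] at key
  simp at key
  exact (sub_eq_zero.1 key).symm

theorem sum_close (ρ C : ℝ) (hρ : 1 < ρ) (hC : 0 < C) : ∃ K : ℝ, 0 < K ∧ ∃ n₀ : ℕ, ∀ n ≥ n₀, ∀ A : Finset ℕ, Good C n A →
    ∀ w : ℂ, ρ ≤ ‖w‖ →
      ‖∑ a ∈ A, (2 * (a : ℂ) / (((Real.sqrt n : ℂ) * (w + w⁻¹)) ^ 2 - (a : ℂ) ^ 2)) -
        ∫ x in (0 : ℝ)..(2 * Real.sqrt n), (2 * (x : ℂ) / (((Real.sqrt n : ℂ) * (w + w⁻¹)) ^ 2 - (x : ℂ) ^ 2)) *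
          (rho (Real.sqrt n) x : ℂ)‖ ≤ K / Real.sqrt n := by
  obtain ⟨d, hd⟩ : ∃ d, d = (ρ - 1) ^ 2 / (2 * ρ) := ⟨_, rfl⟩
  have hρ1 : 0 < ρ - 1 := by linarith
  have hd0 : 0 < d := by rw [hd]; positivity
  obtain ⟨M, hM⟩ : ∃ M, M = max (C / d) (max C 1) := ⟨_, rfl⟩
  have hM0 : 0 < M := by
    rw [hM]
    exact lt_max_of_lt_right (lt_max_of_lt_right one_pos)
  refine ⟨3 * C * (2 / d ^ 2 + 36 / d ^ 4), by positivity, ⌈M ^ 2⌉₊, fun n hn A hA w hw => ?_⟩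
  obtain ⟨b, hb⟩ : ∃ b, b = Real.sqrt n := ⟨_, rfl⟩
  rw [← hb]
  have hbM : M ≤ b := by
    rw [hb]
    refine Real.le_sqrt_of_sq_le ?_
    exact (Nat.le_ceil _).trans (by exact_mod_cast hn)
  have hb0 : 0 < b := lt_of_lt_of_le hM0 hbM
  have hCb : C ≤ b * d := by
    have : C / d ≤ b := (by rw [hM]; exact le_max_left _ _ : C / d ≤ M).trans hbM
    rwa [div_le_iff₀ hd0] at this
  have hCb' : C ≤ b := (by rw [hM]; exact (le_max_left _ _).trans (le_max_right _ _) : C ≤ M).trans hbM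
  obtain ⟨z, hz⟩ : ∃ z : ℂ, z = (b : ℂ) * (w + w⁻¹) := ⟨_, rfl⟩
  rw [← hz]
  have hdist : ∀ x : ℝ, |x| ≤ 2 * b + C → b * d ≤ ‖z - (x : ℂ)‖ := by
    intro x hx
    rw [hz, hd]
    rw [hd] at hCb
    exact dist_ge hb0 hρ hCb hw hx
  have hbd : 0 < b * d := mul_pos hb0 hd0
  have hY : 2 * b ≤ 2 * b + C := by linarith
  have hY0 : 0 ≤ 2 * b + C := by linarith
  have htop : ∀ a ∈ A, (a : ℝ) ≤ 2 * b + C := fun a ha => by
    rw [hb]
    exact hA.top a ha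
  rw [parts_aux hb0 hY hbd hdist]
  have hs : ∑ a ∈ A, (2 * (a : ℂ) / (z ^ 2 - (a : ℂ) ^ 2)) =
      ∫ x in (0 : ℝ)..(2 * b + C), gp z x * (cge A x : ℂ) := by
    have h1 : ∀ a ∈ A, (2 * (a : ℂ) / (z ^ 2 - (a : ℂ) ^ 2)) =
        ∫ x in (0 : ℝ)..(2 * b + C), gp z x * (if x ≤ (a : ℝ) then (1 : ℂ) else 0) := by
      intro a ha
      have := (step_aux hbd hdist (Nat.cast_nonneg a) (htop a ha)).2
      rw [this]
      push_cast
      rfl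
    rw [Finset.sum_congr rfl h1, ← intervalIntegral.integral_finsetSum fun a ha =>
      (step_aux hbd hdist (Nat.cast_nonneg a) (htop a ha)).1]
    refine intervalIntegral.integral_congr fun x _ => ?_
    show (∑ a ∈ A, gp z x * (if x ≤ (a : ℝ) then (1 : ℂ) else 0)) = gp z x * (cge A x : ℂ)
    rw [← Finset.mul_sum]
    congr 1
    unfold cge
    rw [Finset.sum_boole]
    push_cast
    rfl
  have iN : IntervalIntegrable (fun x => gp z x * (NN b x : ℂ)) volume 0 (2 * b + C) :=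
    ((gp_cont hbd hdist).mul (Complex.continuous_ofReal.comp (continuous_NN b)).continuousOn).intervalIntegrable_of_Icc hY0
  have iA : IntervalIntegrable (fun x => gp z x * (cge A x : ℂ)) volume 0 (2 * b + C) := by
    have h1 : (fun x => gp z x * (cge A x : ℂ)) =
        fun x => ∑ a ∈ A, gp z x * (if x ≤ (a : ℝ) then (1 : ℂ) else 0) := by
      funext x
      rw [← Finset.mul_sum]
      congr 1
      unfold cge
      rw [Finset.sum_boole]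
      push_cast
      rfl
    rw [h1]
    have h2 := IntervalIntegrable.sum A (f := fun a x => gp z x * (if x ≤ (a : ℝ) then (1 : ℂ) else 0))
      fun a ha => (step_aux hbd hdist (Nat.cast_nonneg a) (htop a ha)).1
    refine h2.congr fun x _ => ?_
    simp [Finset.sum_apply]
  rw [hs, ← intervalIntegral.integral_sub iA iN]
  have hbound : ∀ x ∈ Set.uIoc (0 : ℝ) (2 * b + C), ‖gp z x * (cge A x : ℂ) - gp z x * (NN b x : ℂ)‖ ≤
      (2 / (b * d) ^ 2 + 4 * (2 * b + C) ^ 2 / (b * d) ^ 4) * C := by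
    intro x hx
    rw [Set.uIoc_of_le hY0] at hx
    have e : gp z x * (cge A x : ℂ) - gp z x * (NN b x : ℂ) = gp z x * ((cge A x - NN b x : ℝ) : ℂ) := by
      push_cast
      ring
    rw [e, norm_mul, Complex.norm_real, Real.norm_eq_abs]
    refine mul_le_mul (gp_le hbd hdist (by rw [abs_of_pos hx.1]; exact hx.2)) ?_ (abs_nonneg _) (by positivity)
    rw [hb]
    exact hA.disc x hx.1.le
  refine (intervalIntegral.norm_integral_le_of_norm_le_const hbound).trans ?_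
  rw [sub_zero, abs_of_nonneg hY0]
  have h3 : 2 * b + C ≤ 3 * b := by linarith
  have h4 : (2 / (b * d) ^ 2 + 4 * (2 * b + C) ^ 2 / (b * d) ^ 4) ≤ (2 / d ^ 2 + 36 / d ^ 4) / b ^ 2 := by
    have h5 : 4 * (2 * b + C) ^ 2 / (b * d) ^ 4 ≤ 4 * (3 * b) ^ 2 / (b * d) ^ 4 := by gcongr
    have h6 : 2 / (b * d) ^ 2 + 4 * (3 * b) ^ 2 / (b * d) ^ 4 = (2 / d ^ 2 + 36 / d ^ 4) / b ^ 2 := by
      field_simp
      ring
    linarith
  calc (2 / (b * d) ^ 2 + 4 * (2 * b + C) ^ 2 / (b * d) ^ 4) * C * (2 * b + C)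
      ≤ (2 / d ^ 2 + 36 / d ^ 4) / b ^ 2 * C * (3 * b) := by gcongr
    _ = 3 * C * (2 / d ^ 2 + 36 / d ^ 4) / b := by
        field_simp

end Pool.Agent.Helper1.DL
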