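import Pool.Agent.Helper1.DL.Mean
import Pool.Agent.Helper1.DL.Sum

/-!
BLOCK DL-G3 (about 150 lines). `GA` is near the Cauchy transform `1/(b w)` of the semicircle.

Proof in words. `b = √n` large, `z = b(w + 1/w)`, `|w| ≥ ρ`, `c = (ρ-1)²/(2ρ)`. `(z-a)(z+a)/((z-a-1)(z+a+1)) = 1 + ε_a`, `ε_a = (2a+1)/(z² - (a+1)²)`, and by `dist_ge` (with `C + 1` for `C`; `a + 1 ≤ 2b + C + 1`) `|ε_a| ≤ (2(2b+C)+1)/(c² b²) ≤ K/b ≤ 1/2`,
`|ε_a - 2a/(z²-a²)| = |1/(z²-(a+1)²) + 2a ((a+1)² - a²)/((z²-a²)(z²-(a+1)²))| ≤ K/b²`, `|log(1+ε_a) - ε_a| ≤ |ε_a|² ≤ K/b²` (`Complex.norm_log_one_add_sub_self_le` or similar). `A` has at most `2b/π + C ≤ K b` elements (`disc` at `x = 0`).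
So `z GA = ∏ (1 + ε_a) = exp (∑ log(1+ε_a))` with `|∑ log(1+ε_a) - ∑ 2a/(z²-a²)| ≤ K/b`, and by `sum_close` and `integral_rho_log` `∑ 2a/(z²-a²) = log(1 + w⁻²) + O(1/b)`. So `z GA = (1 + w⁻²) exp(O(1/b))`, and `b w GA = z GA · b w/z = z GA/(1 + w⁻²)`
(`z = b w (1 + w⁻²) ≠ 0`) `= exp(O(1/b)) = 1 + O(1/b)` (`Complex.norm_exp_sub_one_le`).
-/

set_option autoImplicit false

namespace Pool.Agent.Helper1.DL

private theorem card_le_h5 {C : ℝ} {n : ℕ} {A : Finset ℕ} (h : Good C n A) :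
    (A.card : ℝ) ≤ Real.sqrt n + C := by
  have h1 := h.disc 0 le_rfl
  have h2 : cge A 0 = A.card := by
    unfold cge
    rw [Finset.filter_true_of_mem fun a _ => Nat.cast_nonneg a]
  have h3 : NN (Real.sqrt n) 0 = 2 * Real.sqrt n / Real.pi := by
    unfold NN; simp
  rw [h2, h3] at h1
  have h4 : 2 * Real.sqrt n / Real.pi ≤ Real.sqrt n := by
    rw [div_le_iff₀ Real.pi_pos]
    have := Real.pi_gt_three
    nlinarith [Real.sqrt_nonneg (n : ℝ)]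
  have h5 := (abs_le.1 h1).2
  linarith

/-- one factor -/
private theorem factor_h5 {b κ C : ℝ} (hb : 0 < b) (hκ : 0 < κ) (hC0 : 0 < C)
    (hC : C + 1 ≤ b * κ) {z : ℂ} {a : ℕ} (ha : (a : ℝ) ≤ 2 * b + C)
    (hd : ∀ x : ℝ, |x| ≤ 2 * b + (C + 1) → b * κ ≤ ‖z - (x : ℂ)‖)
    (hE : (4 + 2 * κ) / κ ^ 2 / b ≤ 1 / 2) :
    ∃ ε : ℂ, ((z - a) * (z + a)) / ((z - a - 1) * (z + a + 1)) = 1 + ε ∧ ‖ε‖ ≤ 1 / 2 ∧
      ‖Complex.log (1 + ε) - 2 * (a : ℂ) / (z ^ 2 - (a : ℂ) ^ 2)‖ ≤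
        (1 / κ ^ 2 + 2 * ((4 + 2 * κ) / κ ^ 2) ^ 2) / b ^ 2 := by
  set E := (4 + 2 * κ) / κ ^ 2 with hEd
  have ha0 : (0 : ℝ) ≤ a := Nat.cast_nonneg a
  have hbk : 0 < b * κ := by positivity
  have d1 : b * κ ≤ ‖z - (a : ℂ)‖ := by
    have := hd a (by rw [abs_of_nonneg ha0]; linarith)
    simpa using this
  have d2 : b * κ ≤ ‖z + (a : ℂ)‖ := by
    have := hd (-a) (by rw [abs_neg, abs_of_nonneg ha0]; linarith)
    simpa using this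
  have d3 : b * κ ≤ ‖z - ((a : ℂ) + 1)‖ := by
    have := hd (a + 1) (by rw [abs_of_nonneg (by linarith)]; linarith)
    simpa using this
  have d4 : b * κ ≤ ‖z + ((a : ℂ) + 1)‖ := by
    have := hd (-(a + 1)) (by rw [abs_neg, abs_of_nonneg (by linarith)]; linarith)
    push_cast at this
    rwa [sub_neg_eq_add] at this
  have hq : z ^ 2 - (a : ℂ) ^ 2 = (z - a) * (z + a) := by ring
  have hq' : z ^ 2 - ((a : ℂ) + 1) ^ 2 = (z - (a + 1)) * (z + (a + 1)) := by ring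
  have nq : (b * κ) ^ 2 ≤ ‖z ^ 2 - (a : ℂ) ^ 2‖ := by
    rw [hq, norm_mul, sq]
    exact mul_le_mul d1 d2 hbk.le (norm_nonneg _)
  have nq' : (b * κ) ^ 2 ≤ ‖z ^ 2 - ((a : ℂ) + 1) ^ 2‖ := by
    rw [hq', norm_mul, sq]
    exact mul_le_mul d3 d4 hbk.le (norm_nonneg _)
  have q0 : z ^ 2 - (a : ℂ) ^ 2 ≠ 0 := by
    intro h; rw [h, norm_zero] at nq; nlinarith [pow_pos hbk 2]
  have q0' : z ^ 2 - ((a : ℂ) + 1) ^ 2 ≠ 0 := by
    intro h; rw [h, norm_zero] at nq'; nlinarith [pow_pos hbk 2]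
  have h2a : 2 * (a : ℝ) + 1 ≤ (4 + 2 * κ) * b := by nlinarith
  set ε : ℂ := (2 * (a : ℂ) + 1) / (z ^ 2 - ((a : ℂ) + 1) ^ 2) with hε
  have hεn : ‖ε‖ ≤ E / b := by
    rw [hε, norm_div]
    have h1 : ‖(2 * (a : ℂ) + 1)‖ = 2 * (a : ℝ) + 1 := by
      have : (2 * (a : ℂ) + 1) = ((2 * (a : ℝ) + 1 : ℝ) : ℂ) := by push_cast; ring
      rw [this, Complex.norm_real, Real.norm_of_nonneg (by positivity)]
    rw [h1]
    calc (2 * (a : ℝ) + 1) / ‖z ^ 2 - ((a : ℂ) + 1) ^ 2‖ ≤ ((4 + 2 * κ) * b) / (b * κ) ^ 2 := by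
          apply div_le_div₀ (by positivity) h2a (by positivity) nq'
      _ = E / b := by rw [hEd]; field_simp
  have hε2 : ‖ε‖ ≤ 1 / 2 := hεn.trans hE
  refine ⟨ε, ?_, hε2, ?_⟩
  · have e1 : (z - a - 1) * (z + a + 1) = z ^ 2 - ((a : ℂ) + 1) ^ 2 := by ring
    rw [e1, ← hq, hε]
    field_simp
    ring
  · have hlog : ‖Complex.log (1 + ε) - ε‖ ≤ E ^ 2 / b ^ 2 := by
      have h1 := Complex.norm_log_one_add_sub_self_le (z := ε) (by linarith)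
      have h2 : (1 - ‖ε‖)⁻¹ ≤ 2 := by
        rw [inv_le_comm₀ (by linarith) (by norm_num)]
        linarith
      have h3 : ‖ε‖ ^ 2 ≤ (E / b) ^ 2 := pow_le_pow_left₀ (norm_nonneg _) hεn 2
      have h4 : ‖ε‖ ^ 2 * (1 - ‖ε‖)⁻¹ / 2 ≤ ‖ε‖ ^ 2 := by
        have : ‖ε‖ ^ 2 * (1 - ‖ε‖)⁻¹ ≤ ‖ε‖ ^ 2 * 2 := mul_le_mul_of_nonneg_left h2 (by positivity)
        linarith
      calc _ ≤ ‖ε‖ ^ 2 := h1.trans h4
        _ ≤ (E / b) ^ 2 := h3
        _ = E ^ 2 / b ^ 2 := by rw [div_pow]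
    have hdiff : ‖ε - 2 * (a : ℂ) / (z ^ 2 - (a : ℂ) ^ 2)‖ ≤ (1 / κ ^ 2 + E ^ 2) / b ^ 2 := by
      have e1 : ε - 2 * (a : ℂ) / (z ^ 2 - (a : ℂ) ^ 2) = 1 / (z ^ 2 - ((a : ℂ) + 1) ^ 2) +
          (2 * (a : ℂ) * (2 * a + 1)) / ((z ^ 2 - (a : ℂ) ^ 2) * (z ^ 2 - ((a : ℂ) + 1) ^ 2)) := by
        rw [hε]
        field_simp
        ring
      rw [e1]
      refine (norm_add_le _ _).trans ?_
      have t1 : ‖1 / (z ^ 2 - ((a : ℂ) + 1) ^ 2)‖ ≤ 1 / (b * κ) ^ 2 := by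
        rw [norm_div, norm_one]
        exact one_div_le_one_div_of_le (by positivity) nq'
      have t2 : ‖(2 * (a : ℂ) * (2 * a + 1)) / ((z ^ 2 - (a : ℂ) ^ 2) * (z ^ 2 - ((a : ℂ) + 1) ^ 2))‖ ≤
          (((4 + 2 * κ) * b) * ((4 + 2 * κ) * b)) / ((b * κ) ^ 2 * (b * κ) ^ 2) := by
        rw [norm_div, norm_mul (z ^ 2 - (a : ℂ) ^ 2)]
        have h1 : ‖(2 * (a : ℂ) * (2 * a + 1))‖ = 2 * (a : ℝ) * (2 * a + 1) := by
          have : (2 * (a : ℂ) * (2 * a + 1)) = ((2 * (a : ℝ) * (2 * a + 1) : ℝ) : ℂ) := by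
            push_cast; ring
          rw [this, Complex.norm_real, Real.norm_of_nonneg (by positivity)]
        rw [h1]
        refine div_le_div₀ (by positivity) ?_ (by positivity) ?_
        · exact mul_le_mul (by linarith) h2a (by positivity) (by positivity)
        · exact mul_le_mul nq nq' (by positivity) (norm_nonneg _)
      refine (add_le_add t1 t2).trans (le_of_eq ?_)
      rw [hEd]
      field_simp
    have e2 : Complex.log (1 + ε) - 2 * (a : ℂ) / (z ^ 2 - (a : ℂ) ^ 2) =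
        (Complex.log (1 + ε) - ε) + (ε - 2 * (a : ℂ) / (z ^ 2 - (a : ℂ) ^ 2)) := by ring
    rw [e2]
    refine (norm_add_le _ _).trans ((add_le_add hlog hdiff).trans (le_of_eq ?_))
    rw [← add_div]
    congr 1
    ring

theorem GA_close (ρ C : ℝ) (hρ : 1 < ρ) (hC : 0 < C) : ∃ K : ℝ, 0 < K ∧ ∃ n₀ : ℕ, ∀ n ≥ n₀, ∀ A : Finset ℕ, Good C n A →
    ∀ w : ℂ, ρ ≤ ‖w‖ →
      ‖(Real.sqrt n : ℂ) * w * GA A ((Real.sqrt n : ℂ) * (w + w⁻¹)) - 1‖ ≤ K / Real.sqrt n := by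
  obtain ⟨K₁, hK₁, n₁, h₁⟩ := sum_close ρ C hρ hC
  set κ := (ρ - 1) ^ 2 / (2 * ρ) with hκd
  have hκ : 0 < κ := by
    have : 0 < ρ - 1 := by linarith
    positivity
  set E := (4 + 2 * κ) / κ ^ 2 with hE
  have hE0 : 0 < E := by positivity
  set D := 1 / κ ^ 2 + 2 * E ^ 2 with hD
  have hD0 : 0 < D := by positivity
  set K₂ := (1 + κ) * D + K₁ with hK₂
  have hK₂0 : 0 < K₂ := by positivity
  -- the threshold
  set T := max (max 1 ((C + 1) / κ)) (max (2 * E) K₂) with hT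
  refine ⟨2 * K₂, by positivity, max n₁ (⌈T ^ 2⌉₊), fun n hn A hA w hw => ?_⟩
  set b := Real.sqrt n with hb
  have hT0 : 0 < T := lt_of_lt_of_le one_pos ((le_max_left _ _).trans (le_max_left _ _))
  have hbT : T ≤ b := by
    rw [hb]
    apply Real.le_sqrt_of_sq_le
    have h2 : T ^ 2 ≤ (⌈T ^ 2⌉₊ : ℝ) := Nat.le_ceil _
    have h3 : ((⌈T ^ 2⌉₊ : ℕ) : ℝ) ≤ (n : ℝ) := by exact_mod_cast (le_max_right _ _).trans hn
    linarith
  have hb1 : 1 ≤ b := ((le_max_left _ _).trans (le_max_left _ _)).trans hbT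
  have hb0 : 0 < b := by linarith
  have hbC : C + 1 ≤ b * κ := by
    have : (C + 1) / κ ≤ b := ((le_max_right _ _).trans (le_max_left _ _)).trans hbT
    rwa [div_le_iff₀ hκ] at this
  have hbE : E / b ≤ 1 / 2 := by
    have : 2 * E ≤ b := ((le_max_left _ _).trans (le_max_right _ _)).trans hbT
    rw [div_le_iff₀ hb0]; linarith
  have hbK : K₂ / b ≤ 1 := by
    have : K₂ ≤ b := ((le_max_right _ _).trans (le_max_right _ _)).trans hbT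
    rw [div_le_iff₀ hb0]; linarith
  have hw1 : 1 < ‖w‖ := lt_of_lt_of_le hρ hw
  have hw0 : w ≠ 0 := by
    intro h; rw [h, norm_zero] at hw1; linarith
  set z : ℂ := (b : ℂ) * (w + w⁻¹) with hz
  have hd : ∀ x : ℝ, |x| ≤ 2 * b + (C + 1) → b * κ ≤ ‖z - (x : ℂ)‖ := fun x hx =>
    dist_ge hb0 hρ hbC hw hx
  have hfac : ∀ a ∈ A, ∃ ε : ℂ, ((z - a) * (z + a)) / ((z - a - 1) * (z + a + 1)) = 1 + ε ∧
      ‖ε‖ ≤ 1 / 2 ∧ ‖Complex.log (1 + ε) - 2 * (a : ℂ) / (z ^ 2 - (a : ℂ) ^ 2)‖ ≤ D / b ^ 2 :=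
    fun a ha => factor_h5 hb0 hκ hC hbC (hA.top a ha) hd hbE
  choose! ε hε1 hε2 hε3 using hfac
  -- nonvanishing
  have hv : ‖(w⁻¹ ^ 2 : ℂ)‖ < 1 := by
    rw [norm_pow, norm_inv]
    have h1 : ‖w‖⁻¹ < 1 := inv_lt_one_of_one_lt₀ hw1
    exact pow_lt_one₀ (by positivity) h1 (by norm_num)
  have h1v : (1 + w⁻¹ ^ 2 : ℂ) ≠ 0 := by
    intro h
    have : (w⁻¹ ^ 2 : ℂ) = -1 := by linear_combination h
    rw [this] at hv; simp at hv
  have hbc : (b : ℂ) ≠ 0 := by exact_mod_cast hb0.ne'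
  have hzw : z = (b : ℂ) * w * (1 + w⁻¹ ^ 2) := by rw [hz]; field_simp
  have hz0 : z ≠ 0 := by rw [hzw]; exact mul_ne_zero (mul_ne_zero hbc hw0) h1v
  -- the product is an exponential
  have hprod : ∏ a ∈ A, ((z - a) * (z + a)) / ((z - a - 1) * (z + a + 1)) =
      Complex.exp (∑ a ∈ A, Complex.log (1 + ε a)) := by
    rw [Complex.exp_sum]
    refine Finset.prod_congr rfl fun a ha => ?_
    rw [hε1 a ha, Complex.exp_log]
    intro h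
    have h2 : ε a = -1 := by linear_combination h
    have h3 := hε2 a ha
    rw [h2, norm_neg, norm_one] at h3
    norm_num at h3
  have hmain : (b : ℂ) * w * GA A z = Complex.exp ((∑ a ∈ A, Complex.log (1 + ε a)) -
      Complex.log (1 + w⁻¹ ^ 2)) := by
    unfold GA
    rw [hprod, Complex.exp_sub, Complex.exp_log h1v, hzw]
    field_simp
  -- estimate
  have hsum : ‖(∑ a ∈ A, Complex.log (1 + ε a)) - ∑ a ∈ A, (2 * (a : ℂ) / (z ^ 2 - (a : ℂ) ^ 2))‖ ≤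
      (1 + κ) * D / b := by
    rw [← Finset.sum_sub_distrib]
    refine (norm_sum_le _ _).trans ?_
    refine (Finset.sum_le_sum hε3).trans ?_
    rw [Finset.sum_const, nsmul_eq_mul]
    have hcard := card_le_h5 hA
    have h3 : (A.card : ℝ) ≤ (1 + κ) * b := by
      have : (A.card : ℝ) ≤ b + C := hcard
      nlinarith
    calc (A.card : ℝ) * (D / b ^ 2) ≤ ((1 + κ) * b) * (D / b ^ 2) :=
          mul_le_mul_of_nonneg_right h3 (by positivity)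
      _ = (1 + κ) * D / b := by field_simp
  have hn1 : n₁ ≤ n := (le_max_left _ _).trans hn
  have hs := h₁ n hn1 A hA w hw
  rw [integral_rho_log hb0 hw1] at hs
  have htot : ‖(∑ a ∈ A, Complex.log (1 + ε a)) - Complex.log (1 + w⁻¹ ^ 2)‖ ≤ K₂ / b := by
    have e1 : (∑ a ∈ A, Complex.log (1 + ε a)) - Complex.log (1 + w⁻¹ ^ 2) =
        ((∑ a ∈ A, Complex.log (1 + ε a)) - ∑ a ∈ A, (2 * (a : ℂ) / (z ^ 2 - (a : ℂ) ^ 2))) +
        ((∑ a ∈ A, (2 * (a : ℂ) / (z ^ 2 - (a : ℂ) ^ 2))) - Complex.log (1 + w⁻¹ ^ 2)) := by ring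
    rw [e1]
    refine (norm_add_le _ _).trans ((add_le_add hsum hs).trans (le_of_eq ?_))
    rw [hK₂]; ring
  rw [hmain]
  refine (Complex.norm_exp_sub_one_le (htot.trans hbK)).trans ?_
  calc 2 * ‖(∑ a ∈ A, Complex.log (1 + ε a)) - Complex.log (1 + w⁻¹ ^ 2)‖ ≤ 2 * (K₂ / b) :=
        mul_le_mul_of_nonneg_left htot (by norm_num)
    _ = 2 * K₂ / b := by ring

end Pool.Agent.Helper1.DL
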