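import Pool.Agent.Helper1.DL.Floor

/-!
BLOCK DL-C2 (about 150 lines). The set of Frobenius coordinates of size exactly `n`.

Proof in words. `b = √n` large, `b₀ = b - 5`, `A₀` from `exists_A0` (`b₀ ≥ 2`), `n₀ = 2 ∑ A₀ + |A₀|`, `r = |A₀| = cge A₀ 0`, so `|r - 2b₀/π| ≤ 1` (`NN_zero`): `b/2 ≤ r ≤ b` for large `n`.
`n - n₀ ≥ n - b₀² - 5b₀ - 2 ≥ 10 b - 25 - 5b - 2 ≥ 4b + 1 ≥ 4r + 1`, and `n - n₀ ≤ n - b₀² + 5b₀ + 2 ≤ 15 b + 2 ≤ 32 r`. Let `ε ∈ {0, 1}`, `ε = (n - n₀) mod 2`, `i = (n - n₀ - ε)/2 ≥ 2r`, `e = i / r ≥ 2`, `j = i % r < r`, `e ≤ 16`.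
There is `t` with `#{a ∈ A₀ : t ≤ a} = j` (the count goes from `r` at `t = 0` to `0` in steps `≤ 1`). `s a = a + e + [t ≤ a]` is strictly increasing and `s a' - s a ≥ a' - a` for `a < a'`. `A = s(A₀) ∪ {0 if ε = 1}`.
* gap: in `A₀` different elements differ by at least `2`, so in `s(A₀)` too; the elements of `s(A₀)` are `≥ e ≥ 2`, so `0, 1 ∉ s(A₀)`, `1 ∉ A`.
* size: `2 ∑ A + |A| = 2(∑ A₀ + e r + j) + r + ε = n₀ + 2 i + ε = n`.
* top: `a ≤ 2 b₀ + 17`.
* disc, `x ≥ 0`: `cge A₀ x ≤ cge (s(A₀)) x ≤ cge A₀ (x - e - 1)`, `0 ≤ cge A x - cge (s(A₀)) x ≤ 1`. With `y = max (x - e - 1) 0`: `cge A₀ (x - e - 1) = cge A₀ y ≤ NN b₀ y + 1 ≤ NN b₀ x + (e+1)/2 + 1` (`NN_sub`), and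
  `cge A₀ x ≥ NN b₀ x - 1`, `0 ≤ NN b x - NN b₀ x ≤ 5` (`NN_mono`). So `C = 20` works.
-/

set_option autoImplicit false

namespace Pool.Agent.Helper1.DL

private theorem cge_zero81 (A : Finset ℕ) : cge A 0 = (A.card : ℝ) := by
  unfold cge
  congr 2
  apply Finset.filter_true_of_mem
  intro a _
  exact Nat.cast_nonneg a

private theorem exists_cut81 (A : Finset ℕ) (j : ℕ) (hj : j < A.card) :
    ∃ t : ℕ, (A.filter (fun a => t ≤ a)).card = j := by
  classical
  have hex : ∃ t : ℕ, (A.filter (fun a => t ≤ a)).card ≤ j := by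
    refine ⟨A.sup id + 1, ?_⟩
    rw [Finset.filter_false_of_mem]
    · simp
    · intro a ha h
      have h1 : a ≤ A.sup id := Finset.le_sup (f := id) ha
      omega
  refine ⟨Nat.find hex, ?_⟩
  have h1 := Nat.find_spec hex
  rcases Nat.eq_zero_or_pos (Nat.find hex) with h0 | h0
  · rw [h0, Finset.filter_true_of_mem (fun a _ => Nat.zero_le a)] at h1
    omega
  · obtain ⟨t, ht⟩ : ∃ t, Nat.find hex = t + 1 := ⟨Nat.find hex - 1, by omega⟩
    have h2 := Nat.find_min hex (m := t) (by omega)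
    rw [ht] at h1 ⊢
    have h3 : A.filter (fun a => t ≤ a) ⊆ insert t (A.filter (fun a => t + 1 ≤ a)) := by
      intro a ha
      rw [Finset.mem_filter] at ha
      rw [Finset.mem_insert, Finset.mem_filter]
      rcases Nat.eq_or_lt_of_le ha.2 with h | h
      · exact Or.inl h.symm
      · exact Or.inr ⟨ha.1, h⟩
    have h4 := (Finset.card_le_card h3).trans (Finset.card_insert_le _ _)
    omega

theorem exists_good : ∃ C : ℝ, 0 < C ∧ ∃ n₀ : ℕ, ∀ n ≥ n₀, ∃ A : Finset ℕ, Good C n A := by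
  classical
  refine ⟨20, by norm_num, 10000, ?_⟩
  intro n hn
  set b : ℝ := Real.sqrt n with hbdef
  have hn' : (10000 : ℝ) ≤ n := by exact_mod_cast hn
  have hb2 : b ^ 2 = n := Real.sq_sqrt (Nat.cast_nonneg n)
  have hb0 : 0 ≤ b := Real.sqrt_nonneg _
  have hb100 : 100 ≤ b := by
    by_contra h
    push Not at h
    nlinarith
  set b₀ : ℝ := b - 5 with hb₀
  obtain ⟨A₀, hgap, htop, hsize, hdisc⟩ := exists_A0 (b := b₀) (by linarith)
  set r : ℕ := A₀.card with hr
  have hpi1 := Real.pi_gt_d2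
  have hpi2 := Real.pi_lt_d2
  have hpi0 := Real.pi_pos
  -- the size of r
  have hr0 : |(r : ℝ) - 2 * b₀ / Real.pi| ≤ 1 := by
    have := hdisc 0 le_rfl
    rwa [cge_zero81, NN_zero] at this
  have hq1 : 2 * b₀ / Real.pi ≤ 0.64 * b₀ := by
    rw [div_le_iff₀ hpi0]
    have : 0 ≤ b₀ := by linarith
    nlinarith
  have hq2 : 0.63 * b₀ ≤ 2 * b₀ / Real.pi := by
    rw [le_div_iff₀ hpi0]
    have : 0 ≤ b₀ := by linarith
    nlinarith
  obtain ⟨hr1, hr2⟩ := abs_le.1 hr0
  have hrl : b / 2 ≤ r := by linarith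
  have hru : (r : ℝ) ≤ b := by linarith
  set N₀ : ℕ := 2 * ∑ a ∈ A₀, a + r with hN₀
  obtain ⟨hs1, hs2⟩ := abs_le.1 hsize
  have hNl : N₀ + 4 * r + 1 ≤ n := by
    have : (N₀ : ℝ) + 4 * r + 1 ≤ n := by
      rw [← hb2]
      nlinarith
    exact_mod_cast this
  have hNu : n ≤ N₀ + 32 * r := by
    have : (n : ℝ) ≤ N₀ + 32 * r := by
      rw [← hb2]
      nlinarith
    exact_mod_cast this
  have hrpos : 0 < r := by
    have : (0 : ℝ) < r := by linarith
    exact_mod_cast this
  obtain ⟨m, hm⟩ : ∃ m, n = N₀ + m := ⟨n - N₀, by omega⟩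
  obtain ⟨i, ε, hiε, hε⟩ : ∃ i ε, m = 2 * i + ε ∧ ε < 2 := ⟨m / 2, m % 2, by omega, Nat.mod_lt _ (by norm_num)⟩
  obtain ⟨e, j, hej, hj⟩ : ∃ e j, i = r * e + j ∧ j < r :=
    ⟨i / r, i % r, (Nat.div_add_mod i r).symm, Nat.mod_lt _ hrpos⟩
  have he2 : 2 ≤ e := by
    by_contra h
    push Not at h
    have h1 : r * e ≤ r * 1 := Nat.mul_le_mul_left r (by omega)
    omega
  have he16 : e ≤ 16 := by
    by_contra h
    push Not at h
    have h1 : r * 17 ≤ r * e := Nat.mul_le_mul_left r (by omega)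
    omega
  obtain ⟨t, ht⟩ := exists_cut81 A₀ j hj
  set s : ℕ → ℕ := fun a => a + e + (if t ≤ a then 1 else 0) with hs
  have hslt : ∀ a a' : ℕ, a < a' → s a + (a' - a) ≤ s a' := by
    intro a a' h
    simp only [hs]
    split_ifs <;> omega
  have hsinj : Function.Injective s := by
    intro a a' h
    by_contra hne
    rcases Nat.lt_or_gt_of_ne hne with h1 | h1
    · have := hslt _ _ h1
      omega
    · have := hslt _ _ h1
      omega
  have hse : ∀ a, e ≤ s a ∧ a ≤ s a ∧ s a ≤ a + e + 1 := by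
    intro a
    simp only [hs]
    split_ifs <;> omega
  set A' : Finset ℕ := A₀.image s with hA'
  have h0A' : 0 ∉ A' := by
    intro h
    rw [hA', Finset.mem_image] at h
    obtain ⟨a, _, ha⟩ := h
    have := (hse a).1
    omega
  have h1A' : 1 ∉ A' := by
    intro h
    rw [hA', Finset.mem_image] at h
    obtain ⟨a, _, ha⟩ := h
    have := (hse a).1
    omega
  set A : Finset ℕ := if ε = 1 then insert 0 A' else A' with hA
  have hmem : ∀ x, x ∈ A → x ∈ A' ∨ x = 0 := by
    intro x hx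
    rw [hA] at hx
    split_ifs at hx
    · rw [Finset.mem_insert] at hx
      tauto
    · exact Or.inl hx
  have hsub : A' ⊆ A := by
    rw [hA]
    split_ifs
    · exact Finset.subset_insert _ _
    · exact subset_rfl
  have hsub2 : A ⊆ insert 0 A' := by
    rw [hA]
    split_ifs
    · exact subset_rfl
    · exact Finset.subset_insert _ _
  have hsum' : ∑ a ∈ A', a = ∑ a ∈ A₀, a + e * r + j := by
    rw [hA', Finset.sum_image (fun a _ a' _ h => hsinj h)]
    simp only [hs]
    rw [Finset.sum_add_distrib, Finset.sum_add_distrib, Finset.sum_const, smul_eq_mul, ← Finset.card_filter, ht,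
      ← hr, Nat.mul_comm r e]
  have hcard' : A'.card = r := Finset.card_image_of_injective _ hsinj
  have hsumA : ∑ a ∈ A, a = ∑ a ∈ A', a := by
    rw [hA]
    split_ifs
    · rw [Finset.sum_insert h0A', Nat.zero_add]
    · rfl
  have hcardA : A.card = r + ε := by
    rw [hA]
    split_ifs with h
    · rw [Finset.card_insert_of_notMem h0A', hcard', h]
    · omega
  have hcge' : ∀ x, cge A' x = ((A₀.filter (fun a : ℕ => x ≤ (s a : ℝ))).card : ℝ) := by
    intro x
    unfold cge
    rw [hA', Finset.filter_image, Finset.card_image_of_injective _ hsinj]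
  refine ⟨A, ⟨?_, ?_, ?_, ?_⟩⟩
  · rw [hsumA, hcardA, hsum', hm, hN₀, hiε, hej]
    ring
  · intro x hx hx1
    have h1 : x + 1 ∈ A' := by
      rcases hmem _ hx1 with h | h
      · exact h
      · omega
    rcases hmem _ hx with h | h
    · rw [hA', Finset.mem_image] at h h1
      obtain ⟨a, ha, rfl⟩ := h
      obtain ⟨a', ha', ha'x⟩ := h1
      rcases Nat.lt_trichotomy a a' with h2 | h2 | h2
      · have h3 := hslt _ _ h2
        have h4 : a' ≠ a + 1 := by
          rintro rfl
          exact hgap a ha ha'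
        omega
      · subst h2
        omega
      · have h3 := hslt _ _ h2
        omega
    · subst h
      exact h1A' h1
  · intro x hx
    rcases hmem _ hx with h | h
    · rw [hA', Finset.mem_image] at h
      obtain ⟨a, ha, rfl⟩ := h
      have h1 : (s a : ℝ) ≤ a + e + 1 := by exact_mod_cast (hse a).2.2
      have h2 : (e : ℝ) ≤ 16 := by exact_mod_cast he16
      have h3 := htop a ha
      linarith
    · rw [h]
      push_cast
      linarith
  · intro x hx
    have he16' : (e : ℝ) ≤ 16 := by exact_mod_cast he16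
    have he0' : (0 : ℝ) ≤ e := Nat.cast_nonneg e
    have hlow : cge A₀ x ≤ cge A x := by
      have h1 : cge A' x ≤ cge A x := by
        unfold cge
        exact_mod_cast Finset.card_le_card (Finset.filter_subset_filter _ hsub)
      refine le_trans ?_ h1
      rw [hcge']
      unfold cge
      have : A₀.filter (fun a : ℕ => x ≤ (a : ℝ)) ⊆ A₀.filter (fun a : ℕ => x ≤ (s a : ℝ)) := by
        intro a ha
        rw [Finset.mem_filter] at ha ⊢
        refine ⟨ha.1, ha.2.trans ?_⟩
        exact_mod_cast (hse a).2.1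
      exact_mod_cast Finset.card_le_card this
    set y : ℝ := max (x - e - 1) 0 with hy
    have hy0 : 0 ≤ y := le_max_right _ _
    have hyx : y ≤ x := max_le (by linarith) hx
    have hyx2 : x - y ≤ 17 := by
      have := le_max_left (x - e - 1) 0
      rw [← hy] at this
      linarith
    have hup : cge A x ≤ cge A₀ y + 1 := by
      have h1 : cge A x ≤ cge A' x + 1 := by
        unfold cge
        have h2 : A.filter (fun a : ℕ => x ≤ (a : ℝ)) ⊆ insert 0 (A'.filter (fun a : ℕ => x ≤ (a : ℝ))) := by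
          intro a ha
          rw [Finset.mem_filter] at ha
          rw [Finset.mem_insert, Finset.mem_filter]
          rcases hmem a ha.1 with h | h
          · exact Or.inr ⟨h, ha.2⟩
          · exact Or.inl h
        exact_mod_cast (Finset.card_le_card h2).trans (Finset.card_insert_le _ _)
      refine h1.trans (add_le_add ?_ le_rfl)
      rw [hcge']
      unfold cge
      have : A₀.filter (fun a : ℕ => x ≤ (s a : ℝ)) ⊆ A₀.filter (fun a : ℕ => y ≤ (a : ℝ)) := by
        intro a ha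
        rw [Finset.mem_filter] at ha ⊢
        refine ⟨ha.1, max_le ?_ (Nat.cast_nonneg a)⟩
        have h1 : (s a : ℝ) ≤ a + e + 1 := by exact_mod_cast (hse a).2.2
        linarith [ha.2]
      exact_mod_cast Finset.card_le_card this
    have hb₀pos : 0 < b₀ := by linarith
    have hN1 := NN_sub hb₀pos hy0 hyx
    have hN2 := NN_mono hb₀pos (by linarith : b₀ ≤ b) hx
    have hd1 := abs_le.1 (hdisc x hx)
    have hd2 := abs_le.1 (hdisc y hy0)
    rw [abs_le]
    constructor
    · linarith [hd1.1, hN2.2]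
    · linarith [hd2.2, hN1.2, hN2.1]

end Pool.Agent.Helper1.DL
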