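import Mathlib

/-!
Project DL (MP_22c541_al, Theorem F): a deterministic self-conjugate partition near the limit shape. Definitions that need only Mathlib.
Plan: /team-store/h1_22c541_det.md (helper1).

`A : Finset ℕ` is the set of the Frobenius coordinates of the self-conjugate partition `(A | A)`: its boxes have the contents
`-a, ..., a`, `a ∈ A`; the beads are `a + 1/2` (`a ∈ A`) and `-(a + 1/2)` (`a ∉ A`).
-/

set_option autoImplicit false

namespace Pool.Agent.Helper1.DL

/-- The bead density `arccos (x / 2b) / π` (`0` for `x ≥ 2b`, `1` for `x ≤ -2b`). -/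
noncomputable def rho (b x : ℝ) : ℝ := Real.arccos (x / (2 * b)) / Real.pi

/-- `∫_x^{2b} rho b`. -/
noncomputable def NN (b x : ℝ) : ℝ :=
  2 * b / Real.pi * (Real.sqrt (1 - (x / (2 * b)) ^ 2) - x / (2 * b) * Real.arccos (x / (2 * b)))

/-- The number of the elements `≥ x`. -/
noncomputable def cge (A : Finset ℕ) (x : ℝ) : ℝ := ((A.filter (fun a : ℕ => x ≤ (a : ℝ))).card : ℝ)

/-- The sets of Frobenius coordinates we use: `(A | A)` is a partition of `n`, no two elements of `A` are neighbours, the largest element is at most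
`2 √n + C`, and the number of the elements `≥ x` is `∫_x rho` up to `C` (`b = √n`). -/
structure Good (C : ℝ) (n : ℕ) (A : Finset ℕ) : Prop where
  size : 2 * ∑ a ∈ A, a + A.card = n
  gap : ∀ a ∈ A, a + 1 ∉ A
  top : ∀ a ∈ A, (a : ℝ) ≤ 2 * Real.sqrt n + C
  disc : ∀ x : ℝ, 0 ≤ x → |cge A x - NN (Real.sqrt n) x| ≤ C

/-- The Cauchy transform of the transition measure of `(A | A)`. -/
noncomputable def GA (A : Finset ℕ) (z : ℂ) : ℂ :=
  z⁻¹ * ∏ a ∈ A, ((z - a) * (z + a)) / ((z - a - 1) * (z + a + 1))

end Pool.Agent.Helper1.DL
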