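import Pool.Agent.Helper1.DL.Shape1

/-!
BLOCK DL-S2 (about 200 lines). The contents of `(A | A)`.

Proof in words. `κ = shp N A`, `X = XB N A = image (bd κ)`, `bd κ i = κ i + (N - 1 - i)`. For an integer `c` let `n_c` be the number of the boxes `(i, b)` (`b < κ i`) with `b - i = c`.
* `c ≥ 0`: `n_c = #{i : i + c < κ i} = #{i : bd κ i ≥ N + c} = #{x ∈ X : x ≥ N + c} = #{a ∈ A : a ≥ c}` (`mem_XB`).
* `c < 0`, `e = -c ≤ N`: `n_c = #{i ≥ e : κ i > i - e}`; for all `i < e` trivially `κ i ≥ 0 > i - e`, i.e. `bd κ i ≥ N - e`, so `n_c = #{x ∈ X : x ≥ N - e} - e = |A| + #{a < e : a ∉ A} - e = |A| - #{a ∈ A : a < e} = #{a ∈ A : a ≥ e}` (for `e ≥ N` both are `0`; `a < N`).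
* `cprod h κ = ∏_i ∏_{b < κ i} h (b - i) = ∏_c h(c)^{n_c}` (`Finset.prod_fiberwise`-style over the `Finset.sigma` of the boxes; all contents are in `[-N, N]`) `= ∏_{a ∈ A} ∏_{c ∈ Icc (-a) a} h c` (same fibres).
* `GC_shp`: `∏_{c=-a}^{a} (z-c)²/((z-c)²-1)` telescopes: `(z-c)²-1 = (z-(c-1))(z-(c+1))`, value `(z-a)(z+a)/((z-a-1)(z+a+1))` when no `z - c`, `|c| ≤ a + 1`, vanishes. Induction on `a`: the factor for `c = ±(a+1)` is
  `(z-a-1)²/((z-a)(z-a-2)) · (z+a+1)²/((z+a)(z+a+2))`; the case `a = 0`: `z²/((z-1)(z+1))`.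
* `SC_shp`: for `w.im ≠ 0`, `‖w‖ > 1`, `z = √n (w + w⁻¹)` is not real (`im = √n w.im (1 - 1/‖w‖²)`), so `GC (shp N A) z = GA A z` and `GA_close` applies.
* `Sml_shp`: rows: `κ i ≤ κ 0`, `bd κ i ≤ max X`, so `κ i ≤ max A + 1 + i`.. more precisely: `κ i + (N-1-i) ∈ X`; if it is `≥ N` it is `N + a`, `κ i = a + 1 + i` with `i < |A|`.. for `i = 0` this gives `κ 0 ≤ a + 1 ≤ 2√n + C + 1` and all `κ i ≤ κ 0`
  (if `bd κ 0 < N` then `κ 0 = 0`). Columns (number of the nonzero rows): `cj κ = κ`, so the number of nonzero rows is `cj κ 0 = κ 0`; `0 < κ i` implies `i + 1 ≤ cj κ 0`.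
-/

set_option autoImplicit false

open Module Equiv Pool.Agent.Helper51.TF Pool.Agent.Helper70.TG

namespace Pool.Agent.Helper1.DL

private theorem bdi1 {N : ℕ} {A : Finset ℕ} (hA : ∀ a ∈ A, a < N) : Function.Injective (bd (shp N A)) := by
  have h := card_XB hA
  rw [← image_bd_shp hA] at h
  have h2 : (Finset.univ.image (bd (shp N A))).card = (Finset.univ : Finset (Fin N)).card := by
    rw [h, Finset.card_univ, Fintype.card_fin]
  have h3 := Finset.card_image_iff.1 h2
  intro a b hab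
  exact h3 (by simp) (by simp) hab

private theorem card_ge1 {N : ℕ} {A : Finset ℕ} (hA : ∀ a ∈ A, a < N) (y : ℕ) :
    (Finset.univ.filter (fun i : Fin N => y ≤ bd (shp N A) i)).card =
      ((XB N A).filter (fun x => y ≤ x)).card := by
  rw [← image_bd_shp hA, Finset.filter_image, Finset.card_image_of_injective _ (bdi1 hA)]

private theorem XB_ge1 {N : ℕ} {A : Finset ℕ} (c : ℕ) :
    ((XB N A).filter (fun x => N + c ≤ x)).card = (A.filter (fun a => c ≤ a)).card := by
  rw [← Finset.card_image_of_injective (A.filter (fun a => c ≤ a)) (add_right_injective N)]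
  congr 1
  ext x
  rw [Finset.mem_filter, mem_XB, Finset.mem_image]
  constructor
  · rintro ⟨⟨h1, h2⟩ | ⟨h1, h2⟩, h3⟩
    · exact ⟨x - N, Finset.mem_filter.2 ⟨h2, by omega⟩, by omega⟩
    · omega
  · rintro ⟨a, ha, rfl⟩
    rw [Finset.mem_filter] at ha
    refine ⟨Or.inl ⟨Nat.le_add_right _ _, ?_⟩, by omega⟩
    rw [Nat.add_sub_cancel_left]
    exact ha.1

private theorem XB_ge2 {N : ℕ} {A : Finset ℕ} (e : ℕ) (he : e ≤ N) :
    ((XB N A).filter (fun x => N - e ≤ x)).card = A.card + ((Finset.range e).filter (fun a => a ∉ A)).card := by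
  have h1 : (XB N A).filter (fun x => N - e ≤ x) =
      A.image (fun a => N + a) ∪ ((Finset.range e).filter (fun a => a ∉ A)).image (fun a => N - 1 - a) := by
    ext x
    rw [Finset.mem_filter, mem_XB, Finset.mem_union, Finset.mem_image, Finset.mem_image]
    constructor
    · rintro ⟨⟨h1, h2⟩ | ⟨h1, h2⟩, h3⟩
      · exact Or.inl ⟨x - N, h2, by omega⟩
      · refine Or.inr ⟨N - 1 - x, ?_, by omega⟩
        rw [Finset.mem_filter, Finset.mem_range]
        exact ⟨by omega, h2⟩
    · rintro (⟨a, ha, rfl⟩ | ⟨a, ha, rfl⟩)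
      · refine ⟨Or.inl ⟨Nat.le_add_right _ _, ?_⟩, by omega⟩
        rwa [Nat.add_sub_cancel_left]
      · rw [Finset.mem_filter, Finset.mem_range] at ha
        refine ⟨Or.inr ⟨by omega, ?_⟩, by omega⟩
        have : N - 1 - (N - 1 - a) = a := by omega
        rw [this]
        exact ha.2
  rw [h1, Finset.card_union_of_disjoint, Finset.card_image_of_injective _ (add_right_injective N),
    Finset.card_image_of_injOn]
  · intro a ha b hb h
    rw [Finset.mem_coe, Finset.mem_filter, Finset.mem_range] at ha hb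
    have h1 : N - 1 - a = N - 1 - b := h
    omega
  · rw [Finset.disjoint_left]
    rintro x hx hx'
    obtain ⟨a, -, rfl⟩ := Finset.mem_image.1 hx
    obtain ⟨a', ha', h⟩ := Finset.mem_image.1 hx'
    rw [Finset.mem_filter, Finset.mem_range] at ha'
    omega

/-- The number of the boxes of content `c`. -/
private theorem cont1 {N : ℕ} {A : Finset ℕ} (hA : ∀ a ∈ A, a < N) (c : ℤ) (h1 : -(N : ℤ) ≤ c) :
    (Finset.univ.filter (fun i : Fin N => 0 ≤ c + (i : ℕ) ∧ c + (i : ℕ) < shp N A i)).card =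
      (A.filter (fun a : ℕ => -(a : ℤ) ≤ c ∧ c ≤ a)).card := by
  rcases le_or_gt 0 c with h0 | h0
  · obtain ⟨d, rfl⟩ := Int.eq_ofNat_of_zero_le h0
    have h2 : Finset.univ.filter (fun i : Fin N => 0 ≤ (d : ℤ) + (i : ℕ) ∧ (d : ℤ) + (i : ℕ) < shp N A i) =
        Finset.univ.filter (fun i : Fin N => N + d ≤ bd (shp N A) i) := by
      ext i
      simp only [Finset.mem_filter, Finset.mem_univ, true_and]
      have h3 : bd (shp N A) i = shp N A i + (N - 1 - i) := rfl
      have := i.2
      omega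
    have h3 : A.filter (fun a : ℕ => -(a : ℤ) ≤ (d : ℤ) ∧ (d : ℤ) ≤ a) = A.filter (fun a => d ≤ a) := by
      refine Finset.filter_congr fun a _ => ?_
      omega
    rw [h2, h3, card_ge1 hA, XB_ge1]
  · obtain ⟨e, he⟩ : ∃ e : ℕ, c = -(e : ℤ) := ⟨c.natAbs, by omega⟩
    subst he
    have heN : e ≤ N := by omega
    have h2 : (Finset.univ.filter (fun i : Fin N => N - e ≤ bd (shp N A) i)).card =
        (Finset.univ.filter (fun i : Fin N => 0 ≤ -(e : ℤ) + (i : ℕ) ∧ -(e : ℤ) + (i : ℕ) < shp N A i)).card + e := by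
      have h3 : Finset.univ.filter (fun i : Fin N => N - e ≤ bd (shp N A) i) =
          Finset.univ.filter (fun i : Fin N => 0 ≤ -(e : ℤ) + (i : ℕ) ∧ -(e : ℤ) + (i : ℕ) < shp N A i) ∪
            Finset.univ.filter (fun i : Fin N => (i : ℕ) < e) := by
        ext i
        simp only [Finset.mem_filter, Finset.mem_univ, true_and, Finset.mem_union]
        have h3 : bd (shp N A) i = shp N A i + (N - 1 - i) := rfl
        have := i.2
        omega
      have h4 : (Finset.univ.filter (fun i : Fin N => (i : ℕ) < e)).card = e := by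
        have : (Finset.univ.filter (fun i : Fin N => (i : ℕ) < e)).map Fin.valEmbedding = Finset.range e := by
          ext x
          simp only [Finset.mem_map, Finset.mem_filter, Finset.mem_univ, true_and, Fin.valEmbedding_apply,
            Finset.mem_range]
          constructor
          · rintro ⟨s, h3, rfl⟩
            exact h3
          · intro h3
            exact ⟨⟨x, by omega⟩, h3, rfl⟩
        rw [← Finset.card_map Fin.valEmbedding, this, Finset.card_range]
      rw [h3, Finset.card_union_of_disjoint, h4]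
      rw [Finset.disjoint_left]
      intro i hi hi'
      rw [Finset.mem_filter] at hi hi'
      omega
    rw [card_ge1 hA, XB_ge2 e heN] at h2
    have h5 := Finset.card_filter_add_card_filter_not (s := Finset.range e) (fun a => a ∈ A)
    have h6 := Finset.card_filter_add_card_filter_not (s := A) (fun a => a < e)
    have h7 : (Finset.range e).filter (fun a => a ∈ A) = A.filter (fun a => a < e) := by
      ext a
      simp only [Finset.mem_filter, Finset.mem_range]
      tauto
    have h8 : A.filter (fun a : ℕ => -(a : ℤ) ≤ -(e : ℤ) ∧ -(e : ℤ) ≤ a) = A.filter (fun a => ¬ a < e) := by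
      refine Finset.filter_congr fun a _ => ?_
      omega
    rw [Finset.card_range, h7] at h5
    rw [h8]
    omega

theorem cprod_shp {R : Type*} [CommMonoid R] {N : ℕ} {A : Finset ℕ} (hA : ∀ a ∈ A, a < N) (h : ℤ → R) :
    cprod h (shp N A) = ∏ a ∈ A, ∏ c ∈ Finset.Icc (-(a : ℤ)) a, h c := by
  have h1 : cprod h (shp N A) = ∏ c ∈ Finset.Icc (-(N : ℤ)) (N : ℤ), h c ^
      (Finset.univ.filter (fun i : Fin N => 0 ≤ c + (i : ℕ) ∧ c + (i : ℕ) < shp N A i)).card := by
    have h2 : ∀ i : Fin N, ∏ b ∈ Finset.range (shp N A i), h ((b : ℤ) - ((i : ℕ) : ℤ)) =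
        ∏ c ∈ (Finset.Icc (-(N : ℤ)) (N : ℤ)).filter (fun c : ℤ => 0 ≤ c + (i : ℕ) ∧ c + (i : ℕ) < shp N A i), h c := by
      intro i
      have hle := shp_le hA i
      have hi := i.2
      refine Finset.prod_bij' (fun b _ => (b : ℤ) - ((i : ℕ) : ℤ)) (fun c _ => (c + (i : ℕ)).toNat) ?_ ?_ ?_ ?_ ?_
      · intro b hb
        rw [Finset.mem_range] at hb
        simp only [Finset.mem_filter, Finset.mem_Icc]
        omega
      · intro c hc
        simp only [Finset.mem_filter, Finset.mem_Icc] at hc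
        rw [Finset.mem_range]
        omega
      · intro b _
        simp
      · intro c hc
        simp only [Finset.mem_filter, Finset.mem_Icc] at hc
        omega
      · intro b _
        rfl
    unfold cprod
    rw [Finset.prod_congr rfl fun i _ => h2 i]
    simp_rw [Finset.prod_filter]
    rw [Finset.prod_comm]
    refine Finset.prod_congr rfl fun c _ => ?_
    rw [← Finset.prod_filter, Finset.prod_const]
  have h3 : ∏ a ∈ A, ∏ c ∈ Finset.Icc (-(a : ℤ)) (a : ℤ), h c = ∏ c ∈ Finset.Icc (-(N : ℤ)) (N : ℤ), h c ^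
      (A.filter (fun a : ℕ => -(a : ℤ) ≤ c ∧ c ≤ a)).card := by
    have h4 : ∀ a ∈ A, ∏ c ∈ Finset.Icc (-(a : ℤ)) (a : ℤ), h c =
        ∏ c ∈ (Finset.Icc (-(N : ℤ)) (N : ℤ)).filter (fun c : ℤ => -(a : ℤ) ≤ c ∧ c ≤ a), h c := by
      intro a ha
      have := hA a ha
      congr 1
      ext c
      simp only [Finset.mem_filter, Finset.mem_Icc]
      omega
    rw [Finset.prod_congr rfl h4]
    simp_rw [Finset.prod_filter]
    rw [Finset.prod_comm]
    refine Finset.prod_congr rfl fun c _ => ?_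
    rw [← Finset.prod_filter, Finset.prod_const]
  rw [h1, h3]
  refine Finset.prod_congr rfl fun c hc => ?_
  rw [Finset.mem_Icc] at hc
  rw [cont1 hA c hc.1]

private theorem tele1 {z : ℂ} (hz : z.im ≠ 0) (a : ℕ) :
    ∏ c ∈ Finset.Icc (-(a : ℤ)) a, ((z - (c : ℂ)) ^ 2 / ((z - (c : ℂ)) ^ 2 - 1)) =
      ((z - a) * (z + a)) / ((z - a - 1) * (z + a + 1)) := by
  have hne : ∀ c : ℂ, c.im = 0 → z - c ≠ 0 := by
    intro c hc h
    apply hz
    have := congrArg Complex.im h
    rw [Complex.sub_im, hc, Complex.zero_im, sub_zero] at this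
    exact this
  induction a with
  | zero =>
    have h1 := hne 1 (by simp)
    have h2 : z + 1 ≠ 0 := by simpa using hne (-1) (by simp)
    have h3 : z ^ 2 - 1 ≠ 0 := by
      have : z ^ 2 - 1 = (z - 1) * (z + 1) := by ring
      rw [this]
      exact mul_ne_zero h1 h2
    simp
    field_simp
    ring
  | succ a ih =>
    have h1 : Finset.Icc (-((a + 1 : ℕ) : ℤ)) ((a + 1 : ℕ) : ℤ) =
        insert (-((a + 1 : ℕ) : ℤ)) (insert ((a + 1 : ℕ) : ℤ) (Finset.Icc (-(a : ℤ)) a)) := by
      ext c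
      simp only [Finset.mem_insert, Finset.mem_Icc]
      push_cast
      omega
    rw [h1, Finset.prod_insert, Finset.prod_insert, ih]
    · have h2 : z - (a + 1) ≠ 0 := hne _ (by simp)
      have h3 : z - a ≠ 0 := hne _ (by simp)
      have h4 : z - (a + 2) ≠ 0 := hne _ (by simp)
      have h5 : z + (a + 1) ≠ 0 := by
        have := hne (-(a + 1)) (by simp)
        rwa [sub_neg_eq_add] at this
      have h6 : z + a ≠ 0 := by
        have := hne (-a) (by simp)
        rwa [sub_neg_eq_add] at this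
      have h7 : z + (a + 2) ≠ 0 := by
        have := hne (-(a + 2)) (by simp)
        rwa [sub_neg_eq_add] at this
      have e1 : (z - ((-((a + 1 : ℕ) : ℤ) : ℤ) : ℂ)) ^ 2 - 1 = (z + a) * (z + (a + 2)) := by
        push_cast
        ring
      have e2 : (z - (((a + 1 : ℕ) : ℤ) : ℂ)) ^ 2 - 1 = (z - a) * (z - (a + 2)) := by
        push_cast
        ring
      rw [e1, e2]
      have e3 : z - (a : ℂ) - 1 = z - (a + 1) := by ring
      have e4 : z + (a : ℂ) + 1 = z + (a + 1) := by ring
      have e5 : z - ((a + 1 : ℕ) : ℂ) - 1 = z - (a + 2) := by push_cast; ring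
      have e6 : z + ((a + 1 : ℕ) : ℂ) + 1 = z + (a + 2) := by push_cast; ring
      rw [e3, e4, e5, e6]
      push_cast
      have e7 : z - -((a : ℂ) + 1) = z + (a + 1) := by ring
      rw [e7]
      field_simp
    · rw [Finset.mem_Icc]
      omega
    · rw [Finset.mem_insert, Finset.mem_Icc]
      omega

theorem GC_shp {N : ℕ} {A : Finset ℕ} (hA : ∀ a ∈ A, a < N) {z : ℂ} (hz : z.im ≠ 0) :
    GC (shp N A) z = GA A z := by
  unfold GC GA
  rw [cprod_shp hA]
  congr 1
  exact Finset.prod_congr rfl fun a _ => tele1 hz a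

theorem Sml_shp {N n : ℕ} {A : Finset ℕ} {C : ℝ} (hA : ∀ a ∈ A, a < N) (hg : Good C n A) (hC : 0 < C) :
    Sml (shp N A) (2 * Real.sqrt n + C + 1) := by
  intro i
  have hanti : Antitone (shp N A) := (mem_PP.1 (shp_mem hA)).1
  set o : Fin N := ⟨0, i.pos⟩ with ho
  have h1 : shp N A i ≤ shp N A o := hanti (show o ≤ i from Nat.zero_le _)
  have h2 : bd (shp N A) o ∈ XB N A := by
    rw [← image_bd_shp hA]
    exact Finset.mem_image_of_mem _ (Finset.mem_univ _)
  have h3 : bd (shp N A) o = shp N A o + (N - 1 - 0) := rfl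
  have hp := i.pos
  have h4 : (shp N A o : ℝ) ≤ 2 * Real.sqrt n + C + 1 := by
    rcases mem_XB.1 h2 with ⟨h4, h5⟩ | ⟨h4, -⟩
    · have h6 := hg.top _ h5
      have h7 : shp N A o ≤ (bd (shp N A) o - N) + 1 := by omega
      have h8 : (shp N A o : ℝ) ≤ ((bd (shp N A) o - N : ℕ) : ℝ) + 1 := by exact_mod_cast h7
      linarith
    · have h7 : shp N A o = 0 := by omega
      rw [h7]
      have := Real.sqrt_nonneg (n : ℝ)
      push_cast
      linarith
  refine ⟨le_trans (by exact_mod_cast h1) h4, fun h5 => ?_⟩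
  have h6 : (i : ℕ) + 1 ≤ cj (shp N A) o := by
    unfold cj
    have h7 : (Finset.univ.filter (fun j : Fin N => j ≤ i)) ⊆
        Finset.univ.filter (fun j : Fin N => ((o : Fin N) : ℕ) < shp N A j) := by
      intro j hj
      rw [Finset.mem_filter] at hj ⊢
      exact ⟨hj.1, lt_of_lt_of_le h5 (hanti hj.2)⟩
    refine le_trans ?_ (Finset.card_le_card h7)
    have h8 : Finset.univ.filter (fun j : Fin N => j ≤ i) = Finset.Iic i := by
      ext; simp
    rw [h8, Fin.card_Iic]
  rw [cj_shp hA] at h6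
  have h9 : (((i : ℕ) : ℝ)) + 1 ≤ shp N A o := by exact_mod_cast h6
  linarith

end Pool.Agent.Helper1.DL
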