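import Pool.Agent.Helper1.DL.Shape1
import Pool.Agent.Helper51.TF.H8

/-!
BLOCK DL-S3 (about 150 lines). `(A | A)` has at least `2|A| - 1` removable boxes if no two elements of `A` are neighbours.

Proof in words. `κ = shp N A` (antitone), `X = XB N A`, `bd κ` strictly decreasing with image `X`.
* `isRem_of`: if `bd κ i = x`, `1 ≤ x`, `x - 1 ∉ X` then `IsRem κ i`: `κ i > 0`: the beads after `i` are `< x - 1`; if `κ i = 0` then all `κ j`, `j ≥ i`, are `0`, and `bd κ i = N - 1 - i = x ≥ 1`, so `i + 1 < N` and `bd κ (i+1) = x - 1 ∈ X`, contradiction.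
  `subE κ i` antitone: only `κ i - 1 ≥ κ (i+1)` is new (if `i + 1 < N`): otherwise `κ i = κ (i+1)` and `bd κ (i+1) = x - 1 ∈ X`.
* For `a ∈ A` the bead `x = N + a` has `x - 1 ∉ X`: for `a ≥ 1` because `a - 1 ∉ A` (`gap`: `a - 1 ∈ A` would imply `a ∉ A`), for `a = 0` because `N - 1 ∈ X ↔ 0 ∉ A`.
* For `a ∈ A`, `a ≥ 1`, the bead `x = N - a` (it is in `X` because `N - 1 - x = a - 1 ∉ A`) has `x - 1 = N - 1 - a ∉ X`; `x ≥ 1` as `a < N`.
So there are at least `|A| + (|A| - 1)` removable rows (the beads `N + a` and `N - a` are different, `i` is determined by the bead).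
-/

set_option autoImplicit false

open Module Equiv Pool.Agent.Helper51.TF Pool.Agent.Helper70.TG

namespace Pool.Agent.Helper1.DL

private theorem isRem_of63 {N : ℕ} {κ : Fin N → ℕ} (hκ : Antitone κ) {X : Finset ℕ}
    (hX : Finset.univ.image (bd κ) = X) {i : Fin N} (h1 : 1 ≤ bd κ i) (h2 : bd κ i - 1 ∉ X) : IsRem κ i := by
  have hno : ∀ j : Fin N, bd κ j ≠ bd κ i - 1 := by
    intro j hj
    apply h2
    rw [← hX, ← hj]
    exact Finset.mem_image_of_mem _ (Finset.mem_univ _)
  have hstep : ∀ q : Fin N, i < q → κ q < κ i := by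
    intro q hq
    have hq' : (i : ℕ) < (q : ℕ) := hq
    have hi1 : (i : ℕ) + 1 < N := lt_of_le_of_lt hq' q.2
    have h3 := hno ⟨i + 1, hi1⟩
    have h4 : κ ⟨i + 1, hi1⟩ ≤ κ i := hκ (Fin.le_def.2 (Nat.le_succ _))
    have h5 : κ q ≤ κ ⟨i + 1, hi1⟩ := hκ (Fin.le_def.2 hq')
    unfold bd at h3
    simp only at h3
    omega
  have hpos : 0 < κ i := by
    by_contra h0
    have h3 : (i : ℕ) + 1 < N := by
      unfold bd at h1
      omega
    have h4 := hstep ⟨i + 1, h3⟩ (Fin.lt_def.2 (Nat.lt_succ_self _))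
    omega
  refine ⟨hpos, fun p q hpq => ?_⟩
  unfold subE
  have h5 := hκ hpq
  by_cases hp : p = i
  · by_cases hq : q = i
    · rw [if_pos hp, if_pos hq]
      omega
    · rw [if_pos hp, if_neg hq]
      have h6 : i < q := lt_of_le_of_ne (hp ▸ hpq) (Ne.symm hq)
      have h7 := hstep q h6
      rw [hp]
      omega
  · rw [if_neg hp]
    split_ifs <;> omega

open Classical in
theorem card_rem {N : ℕ} {A : Finset ℕ} (hA : ∀ a ∈ A, a < N) (hgap : ∀ a ∈ A, a + 1 ∉ A) :
    2 * A.card ≤ (Finset.univ.filter (fun i : Fin N => IsRem (shp N A) i)).card + 1 := by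
  have hκ : Antitone (shp N A) := (mem_PP.1 (shp_mem hA)).1
  have hX := image_bd_shp hA
  have key : A.image (fun a => N + a) ∪ (A.erase 0).image (fun a => N - a) ⊆
      (Finset.univ.filter (fun i : Fin N => IsRem (shp N A) i)).image (bd (shp N A)) := by
    intro x hx
    have hx1 : x ∈ XB N A ∧ 1 ≤ x ∧ x - 1 ∉ XB N A := by
      rw [Finset.mem_union, Finset.mem_image, Finset.mem_image] at hx
      rw [mem_XB, mem_XB]
      rcases hx with ⟨a, ha, rfl⟩ | ⟨a, ha, rfl⟩
      · have h1 := hA a ha
        refine ⟨Or.inl ⟨by omega, by rwa [Nat.add_sub_cancel_left]⟩, by omega, ?_⟩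
        rintro (⟨h2, h3⟩ | ⟨h2, h3⟩)
        · have h4 := hgap _ h3
          apply h4
          have h5 : N + a - 1 - N + 1 = a := by omega
          rwa [h5]
        · apply h3
          have h5 : N - 1 - (N + a - 1) = a := by omega
          rwa [h5]
      · rw [Finset.mem_erase] at ha
        have h1 := hA a ha.2
        have h0 : 1 ≤ a := Nat.one_le_iff_ne_zero.2 ha.1
        refine ⟨Or.inr ⟨by omega, fun h2 => ?_⟩, by omega, ?_⟩
        · have h4 := hgap _ h2
          apply h4
          have h5 : N - 1 - (N - a) + 1 = a := by omega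
          rw [h5]
          exact ha.2
        · rintro (⟨h2, h3⟩ | ⟨h2, h3⟩)
          · omega
          · apply h3
            have h5 : N - 1 - (N - a - 1) = a := by omega
            rw [h5]
            exact ha.2
    obtain ⟨h1, h2, h3⟩ := hx1
    rw [← hX, Finset.mem_image] at h1
    obtain ⟨i, -, hi⟩ := h1
    subst hi
    exact Finset.mem_image_of_mem _ (Finset.mem_filter.2 ⟨Finset.mem_univ _, isRem_of63 hκ hX h2 h3⟩)
  have h1 := (Finset.card_le_card key).trans Finset.card_image_le
  have hdis : Disjoint (A.image (fun a => N + a)) ((A.erase 0).image (fun a => N - a)) := by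
    rw [Finset.disjoint_left]
    intro x hx hx'
    rw [Finset.mem_image] at hx hx'
    obtain ⟨a, ha, rfl⟩ := hx
    obtain ⟨b, hb, hb'⟩ := hx'
    rw [Finset.mem_erase] at hb
    have h2 := hA b hb.2
    have h3 := hb.1
    omega
  rw [Finset.card_union_of_disjoint hdis, Finset.card_image_of_injective _ (fun a b h => by simpa using h),
    Finset.card_image_of_injOn (fun a ha b hb h => by
      have h2 := hA a (Finset.mem_of_mem_erase (Finset.mem_coe.1 ha))
      have h3 := hA b (Finset.mem_of_mem_erase (Finset.mem_coe.1 hb))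
      omega)] at h1
  have h4 := Finset.pred_card_le_card_erase (s := A) (a := 0)
  omega

end Pool.Agent.Helper1.DL
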