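import Pool.Agent.Helper70.TG.Defs

/-!
BLOCK DL-W (about 200 lines; combinatorics only). A partition with `c` removable boxes is obtained from every partition `α` with (number of rows) + (number of columns) `≤ c` by inserting columns
and rows: `cj κ = cj (α + ν) + μ` with `ν, μ` antitone.

Proof in words. `κ` antitone. Let `R 0 < R 1 < … < R (c-1)` be removable rows (`Finset.orderEmbOfFin` of the set of the removable rows, restricted to the first `p + L ≤ c`), `ℓ s = κ (R s)`; `ℓ` is strictly decreasing (if `i < j`, `i` removable, then `κ j ≤ κ (i+1) ≤ κ i - 1`: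
from `Antitone (subE κ i)`, `subE κ i j = κ j ≤ subE κ i i = κ i - 1`) and `ℓ s > 0`. For `i < p` put `t i = i + (L - α i) < p + L`; `t` is strictly increasing (as `α` is antitone), `I i = R (t i)` is strictly increasing.
`U = {s < p + L : s ≠ t i for all i < p}`, `J = {ℓ s - 1 : s ∈ U}` (`s ↦ ℓ s - 1` is injective).
* For `i < p`: `#{j ∈ J : j < ℓ (t i)} = #{s ∈ U : ℓ s ≤ ℓ (t i)} = #{s ∈ U : s > t i}` (`t i ∉ U`) `= (p + L - 1 - t i) - (p - 1 - i) = α i` (the numbers `s` with `t i < s < p + L` which are not in `U` are the `t i'`, `i < i' < p`).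
* `ν i = #{j < ℓ (t i) : j ∉ J}` for `i < p`, `0` for `i ≥ p`: antitone, and `α i + ν i = ℓ (t i) = κ (I i)` for `i < p`, `α i + ν i = 0` for `i ≥ p`.
* `μ j = #{i : i ∉ range I, j < κ i}`: antitone, and `cj (α + ν) j + μ j = #{i < p : j < κ (I i)} + #{i ∉ range I : j < κ i} = cj κ j` (`I` is injective).
-/

set_option autoImplicit false

open Module Equiv Pool.Agent.Helper51.TF Pool.Agent.Helper70.TG

namespace Pool.Agent.Helper1.DL

private theorem rem_lt1 {N : ℕ} {κ : Fin N → ℕ} {i j : Fin N} (h : IsRem κ i) (hij : i < j) : κ j < κ i := by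
  have h1 := h.2 hij.le
  unfold subE at h1
  rw [if_pos rfl, if_neg hij.ne', tsub_zero] at h1
  have := h.1
  omega

open Classical in
theorem word {N : ℕ} {κ α : Fin N → ℕ} (hκ : Antitone κ) (hα : Antitone α) (p L : ℕ)
    (hp : ∀ i : Fin N, p ≤ (i : ℕ) → α i = 0) (hL : ∀ i, α i ≤ L)
    (hc : p + L ≤ (Finset.univ.filter (fun i : Fin N => IsRem κ i)).card) :
    ∃ ν μ : Fin N → ℕ, Antitone ν ∧ Antitone μ ∧ cj κ = cj (α + ν) + μ := by
  set S := Finset.univ.filter (fun i : Fin N => IsRem κ i) with hS
  have hSN : S.card ≤ N := by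
    have := Finset.card_filter_le (Finset.univ : Finset (Fin N)) (fun i => IsRem κ i)
    simpa using this
  have hpN : p ≤ N := by omega
  -- the removable rows
  set R : Fin S.card → Fin N := fun s => S.orderEmbOfFin rfl s with hR
  have hRm : StrictMono R := fun a b h => (S.orderEmbOfFin rfl).strictMono h
  have hRS : ∀ s, IsRem κ (R s) := fun s => (Finset.mem_filter.1 (S.orderEmbOfFin_mem rfl s)).2
  have hl : ∀ s s' : Fin S.card, s < s' → κ (R s') < κ (R s) := fun s s' h => rem_lt1 (hRS s) (hRm h)
  have hl' : ∀ s s' : Fin S.card, κ (R s') < κ (R s) ↔ s < s' := by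
    intro s s'
    constructor
    · intro h
      by_contra hn
      rcases (not_lt.1 hn).lt_or_eq with h1 | h1
      · exact absurd (hl _ _ h1) (by omega)
      · rw [h1] at h
        exact lt_irrefl _ h
    · exact hl s s'
  have hl0 : ∀ s, 0 < κ (R s) := fun s => (hRS s).1
  -- the letters
  set t : Fin p → Fin S.card := fun i => ⟨i + (L - α ⟨i, i.2.trans_le hpN⟩), by have := i.2; omega⟩ with ht
  have htm : StrictMono t := by
    intro a b hab
    have h1 : α ⟨b, b.2.trans_le hpN⟩ ≤ α ⟨a, a.2.trans_le hpN⟩ := hα (by exact_mod_cast hab.le)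
    show (a : ℕ) + (L - α ⟨a, a.2.trans_le hpN⟩) < b + (L - α ⟨b, b.2.trans_le hpN⟩)
    have h2 : (a : ℕ) < b := hab
    omega
  have htL : ∀ i : Fin p, (t i : ℕ) < p + L := by
    intro i
    show (i : ℕ) + (L - α ⟨i, i.2.trans_le hpN⟩) < p + L
    have := i.2
    omega
  set U : Finset (Fin S.card) := Finset.univ.filter (fun s => (s : ℕ) < p + L ∧ ∀ i : Fin p, s ≠ t i) with hU
  set J : Finset ℕ := U.image (fun s => κ (R s) - 1) with hJ
  have hJi : Function.Injective (fun s : Fin S.card => κ (R s) - 1) := by
    intro s s' h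
    have h1 : κ (R s) - 1 = κ (R s') - 1 := h
    have := hl0 s
    have := hl0 s'
    rcases lt_trichotomy s s' with h2 | h2 | h2
    · have := hl _ _ h2
      omega
    · exact h2
    · have := hl _ _ h2
      omega
  have hcount : ∀ i : Fin p, (J.filter (fun j => j < κ (R (t i)))).card = α ⟨i, i.2.trans_le hpN⟩ := by
    intro i
    have h1 : J.filter (fun j => j < κ (R (t i))) = (U.filter (fun s => t i < s)).image (fun s => κ (R s) - 1) := by
      rw [hJ, Finset.filter_image]
      congr 1
      ext s
      simp only [Finset.mem_filter]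
      refine and_congr_right fun hs => ?_
      have hs1 := (Finset.mem_filter.1 hs).2.2 i
      have h0 := hl0 s
      constructor
      · intro h
        rcases lt_trichotomy (t i) s with h2 | h2 | h2
        · exact h2
        · exact absurd h2.symm hs1
        · have := hl _ _ h2
          omega
      · intro h
        have := hl _ _ h
        omega
    rw [h1, Finset.card_image_of_injective _ hJi]
    -- count the numbers between t i and p + L which are not in the range of t
    have h2 : (Finset.univ.filter (fun s : Fin S.card => t i < s ∧ (s : ℕ) < p + L)).card = p + L - 1 - (t i : ℕ) := by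
      have : (Finset.univ.filter (fun s : Fin S.card => t i < s ∧ (s : ℕ) < p + L)).map Fin.valEmbedding =
          Finset.Ioo (t i : ℕ) (p + L) := by
        ext x
        simp only [Finset.mem_map, Finset.mem_filter, Finset.mem_univ, true_and, Fin.valEmbedding_apply,
          Finset.mem_Ioo]
        constructor
        · rintro ⟨s, ⟨h3, h4⟩, rfl⟩
          exact ⟨h3, h4⟩
        · rintro ⟨h3, h4⟩
          exact ⟨⟨x, by omega⟩, ⟨h3, h4⟩, rfl⟩
      rw [← Finset.card_map Fin.valEmbedding, this, Nat.card_Ioo]
      omega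
    have h3 : Finset.univ.filter (fun s : Fin S.card => t i < s ∧ (s : ℕ) < p + L) =
        (U.filter (fun s => t i < s)) ∪ ((Finset.univ.filter (fun i' : Fin p => i < i')).image t) := by
      ext s
      simp only [hU, Finset.mem_filter, Finset.mem_univ, true_and, Finset.mem_union, Finset.mem_image]
      constructor
      · rintro ⟨h4, h5⟩
        by_cases h6 : ∃ i', s = t i'
        · obtain ⟨i', rfl⟩ := h6
          exact Or.inr ⟨i', htm.lt_iff_lt.1 h4, rfl⟩
        · push Not at h6
          exact Or.inl ⟨⟨h5, h6⟩, h4⟩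
      · rintro (⟨⟨h4, h5⟩, h6⟩ | ⟨i', h4, rfl⟩)
        · exact ⟨h6, h4⟩
        · exact ⟨htm h4, htL i'⟩
    have h4 : Disjoint (U.filter (fun s => t i < s)) ((Finset.univ.filter (fun i' : Fin p => i < i')).image t) := by
      rw [Finset.disjoint_left]
      intro s hs hs'
      obtain ⟨i', -, rfl⟩ := Finset.mem_image.1 hs'
      exact (Finset.mem_filter.1 (Finset.mem_filter.1 hs).1).2.2 i' rfl
    have h5 : ((Finset.univ.filter (fun i' : Fin p => i < i')).image t).card = p - 1 - i := by
      rw [Finset.card_image_of_injective _ htm.injective]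
      have : Finset.univ.filter (fun i' : Fin p => i < i') = Finset.Ioi i := by
        ext; simp
      rw [this, Fin.card_Ioi]
    have h6 := h2
    rw [h3, Finset.card_union_of_disjoint h4, h5] at h6
    have h7 : (t i : ℕ) = i + (L - α ⟨i, i.2.trans_le hpN⟩) := rfl
    have h8 := i.2
    have h9 := hL ⟨i, i.2.trans_le hpN⟩
    omega
  -- the rows of `κ` which are kept
  set I : Fin p → Fin N := fun i => R (t i) with hI
  have hIm : StrictMono I := hRm.comp htm
  set ν : Fin N → ℕ := fun i => if h : (i : ℕ) < p then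
    ((Finset.range (κ (I ⟨i, h⟩))).filter (fun j => j ∉ J)).card else 0 with hν
  set μ : Fin N → ℕ := fun j => (Finset.univ.filter (fun i : Fin N => (∀ i', i ≠ I i') ∧ (j : ℕ) < κ i)).card with hμ
  have hsum : ∀ (i : Fin N) (h : (i : ℕ) < p), (α + ν) i = κ (I ⟨i, h⟩) := by
    intro i h
    have h1 := hcount ⟨i, h⟩
    have h2 : (J.filter (fun j => j < κ (R (t ⟨i, h⟩)))) = (Finset.range (κ (I ⟨i, h⟩))).filter (fun j => j ∈ J) := by
      ext j
      simp only [Finset.mem_filter, Finset.mem_range, hI]
      tauto
    have h3 := Finset.card_filter_add_card_filter_not (s := Finset.range (κ (I ⟨i, h⟩))) (fun j => j ∈ J)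
    rw [Finset.card_range, ← h2, h1] at h3
    rw [Pi.add_apply, hν]
    simp only [dif_pos h]
    exact h3
  have hsum0 : ∀ (i : Fin N), ¬ (i : ℕ) < p → (α + ν) i = 0 := by
    intro i h
    rw [Pi.add_apply, hp i (not_lt.1 h), hν]
    simp only [dif_neg h]
  refine ⟨ν, μ, ?_, ?_, ?_⟩
  · intro a b hab
    by_cases hb : (b : ℕ) < p
    · have ha : (a : ℕ) < p := lt_of_le_of_lt (by exact_mod_cast hab) hb
      simp only [hν, dif_pos ha, dif_pos hb]
      refine Finset.card_le_card ?_
      intro j hj
      rw [Finset.mem_filter, Finset.mem_range] at hj ⊢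
      refine ⟨hj.1.trans_le ?_, hj.2⟩
      exact hκ (hIm.monotone (by exact_mod_cast hab))
    · simp only [hν, dif_neg hb]
      exact Nat.zero_le _
  · intro a b hab
    simp only [hμ]
    refine Finset.card_le_card ?_
    intro i hi
    rw [Finset.mem_filter] at hi ⊢
    exact ⟨hi.1, hi.2.1, lt_of_le_of_lt (by exact_mod_cast hab) hi.2.2⟩
  · funext j
    rw [Pi.add_apply]
    have h1 : cj (α + ν) j = (Finset.univ.filter (fun i : Fin p => (j : ℕ) < κ (I i))).card := by
      unfold cj
      rw [← Finset.card_map (Fin.castLEEmb hpN)]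
      congr 1
      ext i
      simp only [Finset.mem_filter, Finset.mem_univ, true_and, Finset.mem_map, Fin.castLEEmb_apply]
      constructor
      · intro h
        have hip : (i : ℕ) < p := by
          by_contra h0
          rw [hsum0 i h0] at h
          exact Nat.not_lt_zero _ h
        refine ⟨⟨i, hip⟩, ?_, ?_⟩
        · rwa [hsum i hip] at h
        · exact Fin.ext rfl
      · rintro ⟨i', h, rfl⟩
        rw [hsum (Fin.castLE hpN i') i'.2]
        exact h
    have h2 : cj κ j = (Finset.univ.filter (fun i : Fin p => (j : ℕ) < κ (I i))).card + μ j := by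
      unfold cj
      have h3 : Finset.univ.filter (fun i : Fin N => (j : ℕ) < κ i) =
          ((Finset.univ.filter (fun i : Fin p => (j : ℕ) < κ (I i))).image I) ∪
            (Finset.univ.filter (fun i : Fin N => (∀ i', i ≠ I i') ∧ (j : ℕ) < κ i)) := by
        ext i
        simp only [Finset.mem_filter, Finset.mem_univ, true_and, Finset.mem_union, Finset.mem_image]
        constructor
        · intro h
          by_cases h6 : ∃ i', i = I i'
          · obtain ⟨i', rfl⟩ := h6
            exact Or.inl ⟨i', h, rfl⟩
          · push Not at h6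
            exact Or.inr ⟨h6, h⟩
        · rintro (⟨i', h, rfl⟩ | ⟨-, h⟩)
          · exact h
          · exact h
      rw [h3, Finset.card_union_of_disjoint, Finset.card_image_of_injective _ hIm.injective]
      rw [Finset.disjoint_left]
      intro i hi hi'
      obtain ⟨i', -, rfl⟩ := Finset.mem_image.1 hi
      exact (Finset.mem_filter.1 hi').2.1 i' rfl
    rw [h1, h2]

end Pool.Agent.Helper1.DL
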