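import Pool.Agent.Helper1.DL.Construct
import Pool.Agent.Helper1.DL.Close
import Pool.Agent.Helper1.DL.Shape2
import Pool.Agent.Helper1.DL.Shape3
import Pool.Agent.Helper1.DL.Word
import Pool.Agent.Helper70.TG.W9

/-!
Project DL: the shape. Final statements for the assembly of Theorem F.
-/

set_option autoImplicit false

open Module Equiv Pool.Agent.Helper51.TF Pool.Agent.Helper70.TG

namespace Pool.Agent.Helper1.DL

theorem Good.lt {C : ℝ} {n N : ℕ} {A : Finset ℕ} (hg : Good C n A) (hN : n < N) : ∀ a ∈ A, a < N := by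
  intro a ha
  have h1 : a ≤ ∑ a ∈ A, a := Finset.single_le_sum (f := fun a => a) (fun _ _ => Nat.zero_le _) ha
  have := hg.size
  omega

theorem shp_mem_PP {C : ℝ} {n N : ℕ} {A : Finset ℕ} (hg : Good C n A) (hN : n < N) : shp N A ∈ PP N n := by
  have h := shp_mem (hg.lt hN)
  rwa [hg.size] at h

theorem shp_Sml {C : ℝ} (hC : 0 < C) (θ : ℝ) (hθ : 0 < θ) : ∃ n₀ : ℕ, ∀ n ≥ n₀, ∀ N > n, ∀ A : Finset ℕ, Good C n A →
    Sml (shp N A) ((2 + θ) * Real.sqrt n) := by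
  obtain ⟨n₀, hn₀⟩ := exists_nat_ge (((C + 1) / θ) ^ 2)
  refine ⟨n₀, fun n hn N hN A hg i => ?_⟩
  have h1 : (C + 1) / θ ≤ Real.sqrt n := by
    apply Real.le_sqrt_of_sq_le
    have : (n₀ : ℝ) ≤ n := by exact_mod_cast hn
    linarith
  rw [div_le_iff₀ hθ] at h1
  have h2 := Sml_shp (hg.lt hN) hg hC i
  constructor
  · linarith [h2.1]
  · intro h3
    linarith [h2.2 h3]

theorem shp_SC {C : ℝ} (hC : 0 < C) (ρ : ℝ) (hρ : 1 < ρ) : ∃ K : ℝ, 0 < K ∧ ∃ n₀ : ℕ, ∀ n ≥ n₀, ∀ N > n, ∀ A : Finset ℕ,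
    Good C n A → SC ρ (K / Real.sqrt n) (Real.sqrt n) (shp N A) := by
  obtain ⟨K, hK, n₀, h⟩ := GA_close ρ C hρ hC
  refine ⟨K, hK, max n₀ 1, fun n hn N hN A hg w hw hi => ?_⟩
  have hn1 : 1 ≤ n := (le_max_right _ _).trans hn
  have hs : 0 < Real.sqrt n := Real.sqrt_pos.2 (by exact_mod_cast hn1)
  have hw0 : w ≠ 0 := by
    rintro rfl
    simp at hi
  have hnw : 1 < Complex.normSq w := by
    have h1 : 1 < ‖w‖ := hρ.trans_le hw
    rw [Complex.normSq_eq_norm_sq]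
    nlinarith
  have him : ((Real.sqrt n : ℂ) * (w + w⁻¹)).im ≠ 0 := by
    have h2 : ((Real.sqrt n : ℂ) * (w + w⁻¹)).im = Real.sqrt n * (w.im * (1 - (Complex.normSq w)⁻¹)) := by
      rw [Complex.im_ofReal_mul, Complex.add_im, Complex.inv_im]
      ring
    rw [h2]
    have h3 : (Complex.normSq w)⁻¹ < 1 := inv_lt_one_of_one_lt₀ hnw
    exact mul_ne_zero hs.ne' (mul_ne_zero hi (by linarith))
  rw [GC_shp (hg.lt hN) him]
  exact h n ((le_max_left _ _).trans hn) A hg w hw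

end Pool.Agent.Helper1.DL
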