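import Pool.Agent.Helper1.DL.Arc2

/-!
BLOCK DL-C1 (about 150 lines). The set of the positions of the rounded quantiles.

Proof in words. `F x = ⌊NN b x + 1/2⌋₊`, `X = ⌈2b⌉₊`, `A = {a ≤ X : F (a+1) < F a}`. `F` is antitone on `ℕ`, `F x = 0` for `x ≥ X`, and `F a ≤ F (a+1) + 1` because
`NN b a - NN b (a+1) ≤ 1/2` (`NN_sub`). So `#{a ∈ A : x ≤ a} = F x` for all `x : ℕ` (downward induction from `X + 1`, or telescoping).
* gap: if `a, a+1 ∈ A` then `F a ≥ F (a+2) + 2`, but `NN b a - NN b (a+2) ≤ 1`: `NN b a + 1/2 ≥ F a ≥ F(a+2) + 2 > NN b (a+2) + 1/2 - 1 + 2`, contradiction.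
* `a ∈ A → a ≤ 2b`: otherwise `NN b a = 0`, `F a = 0`.
* for real `x ≥ 0`: `cge A x = F ⌈x⌉₊`, `|F y - NN b y| ≤ 1/2` and `|NN b ⌈x⌉₊ - NN b x| ≤ 1/2`.
* size: `∑_{a ∈ A} a = ∑_{x=1}^X #{a ∈ A : x ≤ a} = ∑_{x=1}^X F x`, within `X/2 ≤ b + 1/2` of `∑ NN b x`, which is within `b` of `b²/2` (`sum_NN`); `A.card = F 0 ≤ 2b/π + 1/2 ≤ b + 1/2`. Total error
  `≤ 2(2b + 1/2) + b + 1/2 ≤ 5b + 2`.
-/

set_option autoImplicit false

namespace Pool.Agent.Helper1.DL

private noncomputable def F92 (b : ℝ) (x : ℕ) : ℕ := ⌊NN b x + 1 / 2⌋₊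

private noncomputable def A92 (b : ℝ) : Finset ℕ :=
  (Finset.range (⌈2 * b⌉₊ + 1)).filter (fun a => F92 b (a + 1) < F92 b a)

private theorem F_anti92 {b : ℝ} (hb : 0 < b) (x : ℕ) : F92 b (x + 1) ≤ F92 b x := by
  unfold F92
  apply Nat.floor_le_floor
  have h := (NN_sub hb (Nat.cast_nonneg x) (by push_cast; linarith : (x : ℝ) ≤ ((x + 1 : ℕ) : ℝ))).1
  linarith

private theorem F_step92 {b : ℝ} (hb : 0 < b) (x : ℕ) : F92 b x ≤ F92 b (x + 1) + 1 := by
  unfold F92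
  have h0 := NN_nonneg hb (Nat.cast_nonneg (α := ℝ) (x + 1))
  rw [← Nat.floor_add_one (by linarith)]
  apply Nat.floor_le_floor
  have h := (NN_sub hb (Nat.cast_nonneg x) (by push_cast; linarith : (x : ℝ) ≤ ((x + 1 : ℕ) : ℝ))).2
  push_cast at h ⊢
  linarith

private theorem F_zero92 {b : ℝ} (hb : 0 < b) (x : ℕ) (hx : 2 * b ≤ x) : F92 b x = 0 := by
  unfold F92
  rw [NN_eq_zero hb hx, Nat.floor_eq_zero]
  norm_num

private theorem F_close92 {b : ℝ} (hb : 0 < b) (x : ℕ) : |(F92 b x : ℝ) - NN b x| ≤ 1 / 2 := by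
  unfold F92
  have h0 := NN_nonneg hb (Nat.cast_nonneg (α := ℝ) x)
  have h1 := Nat.floor_le (by linarith : 0 ≤ NN b x + 1 / 2)
  have h2 := Nat.lt_floor_add_one (NN b x + 1 / 2)
  rw [abs_le]
  constructor <;> linarith

private theorem count92 {b : ℝ} (hb : 0 < b) (j : ℕ) : ∀ x, x + j = ⌈2 * b⌉₊ + 1 →
    ((A92 b).filter (fun a => x ≤ a)).card = F92 b x := by
  induction j with
  | zero =>
    intro x hx
    have h1 : (A92 b).filter (fun a => x ≤ a) = ∅ := by
      rw [Finset.filter_eq_empty_iff]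
      intro a ha
      unfold A92 at ha
      rw [Finset.mem_filter, Finset.mem_range] at ha
      omega
    rw [h1, Finset.card_empty, F_zero92 hb]
    have h2 := Nat.le_ceil (2 * b)
    have h3 : (⌈2 * b⌉₊ : ℝ) ≤ x := by exact_mod_cast (by omega : ⌈2 * b⌉₊ ≤ x)
    linarith
  | succ j ih =>
    intro x hx
    have h1 := ih (x + 1) (by omega)
    have h2 := F_anti92 hb x
    have h3 := F_step92 hb x
    by_cases hxA : x ∈ A92 b
    · have h4 : (A92 b).filter (fun a => x ≤ a) = insert x ((A92 b).filter (fun a => x + 1 ≤ a)) := by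
        ext a
        simp only [Finset.mem_filter, Finset.mem_insert]
        constructor
        · rintro ⟨ha, hxa⟩
          rcases Nat.eq_or_lt_of_le hxa with h | h
          · exact Or.inl h.symm
          · exact Or.inr ⟨ha, h⟩
        · rintro (rfl | ⟨ha, hxa⟩)
          · exact ⟨hxA, le_rfl⟩
          · exact ⟨ha, by omega⟩
      rw [h4, Finset.card_insert_of_notMem (by simp), h1]
      unfold A92 at hxA
      rw [Finset.mem_filter] at hxA
      omega
    · have h4 : (A92 b).filter (fun a => x ≤ a) = (A92 b).filter (fun a => x + 1 ≤ a) := by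
        apply Finset.filter_congr
        intro a ha
        constructor
        · intro hxa
          rcases Nat.eq_or_lt_of_le hxa with h | h
          · exact absurd (h ▸ ha) hxA
          · exact h
        · intro h
          omega
      rw [h4, h1]
      unfold A92 at hxA
      rw [Finset.mem_filter, Finset.mem_range] at hxA
      have h5 : ¬ F92 b (x + 1) < F92 b x := fun h => hxA ⟨by omega, h⟩
      omega

private theorem countall92 {b : ℝ} (hb : 0 < b) (x : ℕ) :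
    ((A92 b).filter (fun a => x ≤ a)).card = F92 b x := by
  rcases Nat.lt_or_ge (⌈2 * b⌉₊ + 1) x with h | h
  · have h1 : (A92 b).filter (fun a => x ≤ a) = ∅ := by
      rw [Finset.filter_eq_empty_iff]
      intro a ha
      unfold A92 at ha
      rw [Finset.mem_filter, Finset.mem_range] at ha
      omega
    rw [h1, Finset.card_empty, F_zero92 hb]
    have h2 := Nat.le_ceil (2 * b)
    have h3 : (⌈2 * b⌉₊ : ℝ) ≤ x := by exact_mod_cast (by omega : ⌈2 * b⌉₊ ≤ x)
    linarith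
  · exact count92 hb (⌈2 * b⌉₊ + 1 - x) x (by omega)

private theorem sumA92 {b : ℝ} (hb : 0 < b) :
    ∑ a ∈ A92 b, a = ∑ x ∈ Finset.Icc 1 ⌈2 * b⌉₊, F92 b x := by
  have h1 : ∀ x ∈ Finset.Icc 1 ⌈2 * b⌉₊, F92 b x = ∑ a ∈ A92 b, if x ≤ a then 1 else 0 := by
    intro x _
    rw [← countall92 hb x, Finset.card_filter]
  rw [Finset.sum_congr rfl h1, Finset.sum_comm]
  refine Finset.sum_congr rfl fun a ha => ?_
  rw [← Finset.card_filter]
  have h2 : (Finset.Icc 1 ⌈2 * b⌉₊).filter (fun x => x ≤ a) = Finset.Icc 1 a := by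
    ext x
    unfold A92 at ha
    rw [Finset.mem_filter, Finset.mem_range] at ha
    simp only [Finset.mem_filter, Finset.mem_Icc]
    omega
  rw [h2, Nat.card_Icc]
  omega

theorem exists_A0 {b : ℝ} (hb : 2 ≤ b) : ∃ A : Finset ℕ, (∀ a ∈ A, a + 1 ∉ A) ∧ (∀ a ∈ A, (a : ℝ) ≤ 2 * b) ∧
    |((2 * ∑ a ∈ A, a + A.card : ℕ) : ℝ) - b ^ 2| ≤ 5 * b + 2 ∧
    ∀ x : ℝ, 0 ≤ x → |cge A x - NN b x| ≤ 1 := by
  have hb0 : 0 < b := by linarith
  refine ⟨A92 b, ?_, ?_, ?_, ?_⟩
  · intro a ha ha1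
    unfold A92 at ha ha1
    rw [Finset.mem_filter] at ha ha1
    have h1 : F92 b (a + 2) + 2 ≤ F92 b a := by
      have := ha.2
      have h2 : F92 b (a + 2) < F92 b (a + 1) := ha1.2
      omega
    have h2 : ((F92 b (a + 2) : ℕ) : ℝ) + 2 ≤ F92 b a := by exact_mod_cast h1
    have h3 := (NN_sub hb0 (Nat.cast_nonneg a) (by push_cast; linarith : (a : ℝ) ≤ ((a + 2 : ℕ) : ℝ))).2
    push_cast at h3
    have h0 := NN_nonneg hb0 (Nat.cast_nonneg (α := ℝ) a)
    have h4 : ((F92 b a : ℕ) : ℝ) ≤ NN b a + 1 / 2 := by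
      unfold F92
      exact Nat.floor_le (by linarith)
    have h5 : NN b ((a + 2 : ℕ) : ℝ) + 1 / 2 < F92 b (a + 2) + 1 := by
      unfold F92
      exact Nat.lt_floor_add_one _
    push_cast at h5
    linarith
  · intro a ha
    by_contra h
    push Not at h
    unfold A92 at ha
    rw [Finset.mem_filter, F_zero92 hb0 a h.le] at ha
    exact absurd ha.2 (Nat.not_lt_zero _)
  · have hX : 2 * b ≤ (⌈2 * b⌉₊ : ℝ) := Nat.le_ceil _
    have hX' : (⌈2 * b⌉₊ : ℝ) < 2 * b + 1 := Nat.ceil_lt_add_one (by linarith)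
    have h1 := sum_NN hb0 ⌈2 * b⌉₊ hX
    have h2 : |∑ x ∈ Finset.Icc 1 ⌈2 * b⌉₊, (F92 b x : ℝ) - ∑ x ∈ Finset.Icc 1 ⌈2 * b⌉₊, NN b (x : ℝ)| ≤
        (⌈2 * b⌉₊ : ℝ) * (1 / 2) := by
      rw [← Finset.sum_sub_distrib]
      refine (Finset.abs_sum_le_sum_abs _ _).trans ?_
      refine (Finset.sum_le_sum fun x _ => F_close92 hb0 x).trans ?_
      rw [Finset.sum_const, Nat.card_Icc, nsmul_eq_mul]
      simp
    have h3 : (A92 b).card = F92 b 0 := by
      rw [← countall92 hb0 0]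
      congr 1
      rw [Finset.filter_true_of_mem]
      intro a _
      exact Nat.zero_le a
    have h4 : ((F92 b 0 : ℕ) : ℝ) ≤ b + 1 / 2 := by
      have h5 := (abs_le.1 (F_close92 hb0 0)).2
      rw [Nat.cast_zero, NN_zero] at h5
      have h6 : 2 * b / Real.pi ≤ b := by
        rw [div_le_iff₀ Real.pi_pos]
        have := Real.two_le_pi
        nlinarith
      linarith
    have h5 : (0 : ℝ) ≤ (F92 b 0 : ℕ) := Nat.cast_nonneg _
    rw [sumA92 hb0, h3]
    push_cast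
    rw [abs_le] at h1 h2 ⊢
    constructor <;> linarith [h1.1, h1.2, h2.1, h2.2]
  · intro x hx
    have h1 : cge (A92 b) x = F92 b ⌈x⌉₊ := by
      unfold cge
      rw [← countall92 hb0]
      congr 2
      apply Finset.filter_congr
      intro a _
      exact Nat.ceil_le.symm
    rw [h1]
    have h2 := F_close92 hb0 ⌈x⌉₊
    have h3 := NN_sub hb0 hx (Nat.le_ceil x)
    have h4 := Nat.ceil_lt_add_one hx
    rw [abs_le] at h2 ⊢
    constructor <;> linarith [h2.1, h2.2, h3.1, h3.2]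

end Pool.Agent.Helper1.DL
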