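import Pool.Agent.Helper1.DL.Final
import Pool.Agent.Helper51.TF.H11
import Pool.Agent.Helper51.TF.H9a

/-!
Project DL: the combinatorial part of `exists_shape` (`TG/FIN`) for the partition `(A | A)`: self-conjugate, every partition with few rows and columns is
obtained from it by deleting rows and columns, and it has at least `√n` removable boxes.
-/

set_option autoImplicit false

open Module Equiv Pool.Agent.Helper51.TN Pool.Agent.Helper51.TF Pool.Agent.Helper70.TG

namespace Pool.Agent.Helper1.DL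

open Classical in
theorem card_rem_ge {C : ℝ} (hC : 0 < C) : ∃ n₀ : ℕ, ∀ n ≥ n₀, ∀ N > n, ∀ A : Finset ℕ, Good C n A →
    6 / 5 * Real.sqrt n + 1 ≤ (Finset.univ.filter (fun i : Fin N => IsRem (shp N A) i)).card := by
  obtain ⟨n₀, hn₀⟩ := exists_nat_ge ((20 * (2 * C + 2)) ^ 2)
  refine ⟨n₀, fun n hn N hN A hg => ?_⟩
  have h1 : 20 * (2 * C + 2) ≤ Real.sqrt n := by
    apply Real.le_sqrt_of_sq_le
    have : (n₀ : ℝ) ≤ n := by exact_mod_cast hn
    linarith
  have h2 := card_rem (hg.lt hN) hg.gap
  have h3 := hg.disc 0 le_rfl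
  have h4 : cge A 0 = A.card := by
    unfold cge
    congr 2
    refine Finset.filter_true_of_mem fun a _ => ?_
    positivity
  rw [h4, NN_zero, abs_le] at h3
  have h5 : 5 / 8 * Real.sqrt n ≤ 2 * Real.sqrt n / Real.pi := by
    rw [le_div_iff₀ Real.pi_pos]
    have h6 := Real.pi_lt_d2
    have h7 := Real.sqrt_nonneg (n : ℝ)
    nlinarith
  have h8 : (2 * (A.card : ℝ)) ≤ ((Finset.univ.filter (fun i : Fin N => IsRem (shp N A) i)).card : ℝ) + 1 := by
    exact_mod_cast h2
  linarith [h3.1]

/-- The combinatorial part of `exists_shape`. -/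
theorem shp_comb {C : ℝ} (hC : 0 < C) : ∃ n₀ : ℕ, ∀ n ≥ n₀, ∀ N > n, ∀ A : Finset ℕ, Good C n A →
    shp N A ∈ PP N n ∧ conjP (shp N A) = shp N A ∧
    (∀ m : ℕ, ∀ α ∈ PP N m,
      (∀ i j : Fin N, 0 < α i → 0 < α j → (α j : ℝ) + ((i : ℕ) : ℝ) + 1 ≤ 6 / 5 * Real.sqrt n) →
      ∃ ν μ : Fin N → ℕ, Antitone ν ∧ Antitone μ ∧ shp N A = fun i => conjP (fun j => α j + ν j) i + μ i) ∧
    (∀ (V : Type) [AddCommGroup V] [Module ℂ V] [FiniteDimensional ℂ V] (ρ : Representation ℂ (Perm (Fin n)) V),
        Lab ρ (shp N A) → Real.sqrt n ≤ (CC ρ).card) := by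
  classical
  obtain ⟨n₀, hn₀⟩ := card_rem_ge hC
  refine ⟨max n₀ 1, fun n hn N hN A hg => ?_⟩
  have hrem := hn₀ n ((le_max_left _ _).trans hn) N hN A hg
  have hn1 : 1 ≤ n := (le_max_right _ _).trans hn
  have hs := Real.sqrt_nonneg (n : ℝ)
  have hmem := shp_mem_PP hg hN
  have hcj : cj (shp N A) = shp N A := cj_shp (hg.lt hN)
  refine ⟨hmem, hcj, ?_, ?_⟩
  · intro m α hα hsm
    have hanti := (mem_PP.1 hα).1
    -- the number of nonzero rows
    set p : ℕ := (Finset.univ.filter (fun i : Fin N => 0 < α i)).card with hp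
    have h0N : 0 < N := by omega
    set o : Fin N := ⟨0, h0N⟩ with ho
    have hmain : p + α o ≤ (Finset.univ.filter (fun i : Fin N => IsRem (shp N A) i)).card := by
      rcases Nat.eq_zero_or_pos (α o) with h | h
      · have h1 : p = 0 := by
          rw [hp, Finset.card_eq_zero, Finset.filter_eq_empty_iff]
          intro i _
          have := hanti (show o ≤ i from Nat.zero_le _)
          omega
        omega
      · -- the last nonzero row
        have hne : (Finset.univ.filter (fun i : Fin N => 0 < α i)).Nonempty := ⟨o, by simp [h]⟩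
        obtain ⟨i, hi, hmax⟩ := Finset.exists_max_image _ (fun i : Fin N => (i : ℕ)) hne
        have hi0 : 0 < α i := (Finset.mem_filter.1 hi).2
        have hpi : p ≤ (i : ℕ) + 1 := by
          have h2 : (Finset.univ.filter (fun i : Fin N => 0 < α i)).map Fin.valEmbedding ⊆ Finset.range ((i : ℕ) + 1) := by
            intro x hx
            rw [Finset.mem_map] at hx
            obtain ⟨j, hj, rfl⟩ := hx
            rw [Finset.mem_range]
            exact Nat.lt_succ_of_le (hmax j hj)
          have h3 := Finset.card_le_card h2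
          rwa [Finset.card_map, Finset.card_range] at h3
        have h4 := hsm i o hi0 h
        have h5 : ((p + α o : ℕ) : ℝ) ≤ ((Finset.univ.filter (fun i : Fin N => IsRem (shp N A) i)).card : ℝ) := by
          have h6 : (p : ℝ) ≤ ((i : ℕ) : ℝ) + 1 := by exact_mod_cast hpi
          push_cast
          linarith
        exact_mod_cast h5
    have hp0 : ∀ i : Fin N, p ≤ (i : ℕ) → α i = 0 := by
      intro i hi
      by_contra hne
      have hi0 : 0 < α i := Nat.pos_of_ne_zero hne
      have h2 : Finset.univ.filter (fun j : Fin N => j ≤ i) ⊆ Finset.univ.filter (fun i : Fin N => 0 < α i) := by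
        intro j hj
        rw [Finset.mem_filter] at hj ⊢
        exact ⟨hj.1, hi0.trans_le (hanti hj.2)⟩
      have h3 := Finset.card_le_card h2
      have h4 : (Finset.univ.filter (fun j : Fin N => j ≤ i)).card = (i : ℕ) + 1 := by
        have : Finset.univ.filter (fun j : Fin N => j ≤ i) = Finset.Iic i := by
          ext j
          simp
        rw [this, Fin.card_Iic]
      omega
    have hL : ∀ i, α i ≤ α o := fun i => hanti (show o ≤ i from Nat.zero_le _)
    obtain ⟨ν, μ, hν, hμ, h⟩ := word (mem_PP.1 hmem).1 hanti p (α o) hp0 hL hmain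
    refine ⟨ν, μ, hν, hμ, ?_⟩
    rw [hcj] at h
    exact h
  · intro V _ _ _ ρ hl
    obtain ⟨m, rfl⟩ : ∃ m, n = m + 1 := ⟨n - 1, by omega⟩
    rw [card_CC (by omega) ρ hmem hl]
    linarith

end Pool.Agent.Helper1.DL
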