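import Pool.Agent.Helper1.DL.Arc1

/-!
BLOCK DL-G1 (about 150 lines; analysis only). The integral of `2x/(z² - x²)` against the bead density.

Proof in words. `z = b (w + 1/w)`, `v = w⁻²`, `|v| < 1`. Substitute `x = 2b cos θ` (`θ` from `π/2` to `0`; `rho b (2b cos θ) = θ/π` for `θ ∈ [0, π]`, `Real.arccos_cos`):
the integral is `(1/π) ∫_0^{π/2} θ · 8 cos θ sin θ / ((w + 1/w)² - 4 cos² θ) dθ`. Since `(w + 1/w)² - 4cos²θ = w² (1 - v e^{2iθ})(1 - v e^{-2iθ})` (expand: `w² + 2 + w⁻² - 2 - 2 cos 2θ = w²(1 - 2 v cos 2θ + v²)`) and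
`4 v sin 2θ / (1 - 2 v cos 2θ + v²) = 4 ∑_{k ≥ 1} v^k sin (2kθ)` (imaginary-part form of the geometric series: `∑ v^k (E^k - E^{-k}) = vE/(1-vE) - vE⁻¹/(1-vE⁻¹) = v(E - E⁻¹)/((1-vE)(1-vE⁻¹))`, `E = e^{2iθ}`),
the integrand is `(4/π) ∑_{k≥1} v^k θ sin(2kθ)` (normally convergent on `[0, π/2]`: `intervalIntegral.hasSum_integral_of_dominated_convergence` or `hasSum_integral_of_summable_norm`), and
`∫_0^{π/2} θ sin(2kθ) dθ = -(π/2) cos(kπ)/(2k) = (-1)^{k+1} π/(4k)` (antiderivative `-θ cos(2kθ)/(2k) + sin(2kθ)/(4k²)`). Total: `∑_{k≥1} (-1)^{k+1} v^k / k = log (1 + v)` (`Complex.hasSum_taylorSeries_log`).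
-/

set_option autoImplicit false

open MeasureTheory

namespace Pool.Agent.Helper1.DL

/-- `E^m` for `E = e^{2iθ}` -/
private theorem exp_pow61 (θ : ℝ) (m : ℕ) :
    Complex.exp (2 * θ * Complex.I) ^ m = Complex.exp (((2 * m * θ : ℝ) : ℂ) * Complex.I) := by
  rw [← Complex.exp_nat_mul]
  congr 1
  push_cast
  ring

private theorem exp_neg_pow61 (θ : ℝ) (m : ℕ) :
    Complex.exp (-(2 * θ * Complex.I)) ^ m = Complex.exp (-(((2 * m * θ : ℝ) : ℂ) * Complex.I)) := by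
  rw [← Complex.exp_nat_mul]
  congr 1
  push_cast
  ring

private theorem sin_eq61 (θ : ℝ) (m : ℕ) : ((Real.sin (2 * m * θ) : ℝ) : ℂ) =
    (Complex.exp (2 * θ * Complex.I) ^ m - Complex.exp (-(2 * θ * Complex.I)) ^ m) / (2 * Complex.I) := by
  rw [exp_pow61, exp_neg_pow61, Complex.ofReal_sin, Complex.sin]
  have hI : Complex.I ≠ 0 := Complex.I_ne_zero
  field_simp
  rw [Complex.I_sq]
  ring_nf

private theorem norm_E61 (θ : ℝ) : ‖Complex.exp (2 * θ * Complex.I)‖ = 1 := by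
  have h : (2 * θ * Complex.I : ℂ) = ((2 * θ : ℝ) : ℂ) * Complex.I := by push_cast; ring
  rw [h, Complex.norm_exp_ofReal_mul_I]

private theorem norm_E61' (θ : ℝ) : ‖Complex.exp (-(2 * θ * Complex.I))‖ = 1 := by
  have h : (-(2 * θ * Complex.I) : ℂ) = ((-(2 * θ) : ℝ) : ℂ) * Complex.I := by push_cast; ring
  rw [h, Complex.norm_exp_ofReal_mul_I]

private theorem ne61 {v E : ℂ} (hv : ‖v‖ < 1) (hE : ‖E‖ = 1) : 1 - v * E ≠ 0 := by
  intro h
  have h1 : v * E = 1 := (sub_eq_zero.1 h).symm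
  have h2 : ‖v * E‖ = 1 := by rw [h1, norm_one]
  rw [norm_mul, hE, mul_one] at h2
  linarith

private theorem hs_congr61 {f g : ℕ → ℂ} {a : ℂ} (h : HasSum g a) (hfg : ∀ k, f k = g k) : HasSum f a := by
  have e : f = g := funext hfg
  rw [e]
  exact h

/-- the geometric series -/
private theorem series61 {v : ℂ} (hv : ‖v‖ < 1) (θ : ℝ) :
    HasSum (fun k : ℕ => v ^ (k + 1) * ((Real.sin (2 * ((k + 1 : ℕ) : ℝ) * θ) : ℝ) : ℂ))
      (v * ((Real.sin (2 * θ) : ℝ) : ℂ) /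
        ((1 - v * Complex.exp (2 * θ * Complex.I)) * (1 - v * Complex.exp (-(2 * θ * Complex.I))))) := by
  have key : ∀ k : ℕ, ((Real.sin (2 * (k : ℝ) * θ) : ℝ) : ℂ) = (Complex.exp (2 * θ * Complex.I) ^ k -
    Complex.exp (-(2 * θ * Complex.I)) ^ k) / (2 * Complex.I) := sin_eq61 θ
  have hn := norm_E61 θ
  have hn' := norm_E61' θ
  generalize Complex.exp (2 * θ * Complex.I) = E at *
  generalize Complex.exp (-(2 * θ * Complex.I)) = E' at *
  have h1 : HasSum (fun k : ℕ => (v * E) * (v * E) ^ k) ((v * E) * (1 - v * E)⁻¹) :=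
    (hasSum_geometric_of_norm_lt_one (by rw [norm_mul, hn, mul_one]; exact hv)).mul_left (v * E)
  have h2 : HasSum (fun k : ℕ => (v * E') * (v * E') ^ k) ((v * E') * (1 - v * E')⁻¹) :=
    (hasSum_geometric_of_norm_lt_one (by rw [norm_mul, hn', mul_one]; exact hv)).mul_left (v * E')
  have h3 := (h1.sub h2).div_const (2 * Complex.I)
  have hd1 := ne61 hv hn
  have hd2 := ne61 hv hn'
  have h5 := key 1
  rw [pow_one, pow_one, Nat.cast_one, mul_one] at h5
  have h4 : (v * E * (1 - v * E)⁻¹ - v * E' * (1 - v * E')⁻¹) / (2 * Complex.I) =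
      v * ((Real.sin (2 * θ) : ℝ) : ℂ) / ((1 - v * E) * (1 - v * E')) := by
    have e1 : v * E * (1 - v * E)⁻¹ - v * E' * (1 - v * E')⁻¹ = v * (E - E') / ((1 - v * E) * (1 - v * E')) := by
      rw [← div_eq_mul_inv, ← div_eq_mul_inv, div_sub_div _ _ hd1 hd2]
      congr 1
      ring
    rw [e1, h5]
    generalize (1 - v * E) * (1 - v * E') = Q
    generalize E - E' = F
    ring
  rw [h4] at h3
  refine hs_congr61 h3 fun k => ?_
  rw [key (k + 1), mul_pow, mul_pow]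
  ring

private theorem int_sin61 {m : ℕ} (hm : m ≠ 0) :
    ∫ θ in (0 : ℝ)..(Real.pi / 2), θ * Real.sin (2 * (m : ℝ) * θ) = (-1) ^ (m + 1) * Real.pi / (4 * m) := by
  have hm' : (m : ℝ) ≠ 0 := by exact_mod_cast hm
  have hd : ∀ θ ∈ Set.uIcc (0 : ℝ) (Real.pi / 2), HasDerivAt (fun θ : ℝ =>
      -θ * Real.cos (2 * (m : ℝ) * θ) / (2 * m) + Real.sin (2 * (m : ℝ) * θ) / (4 * m ^ 2))
      (θ * Real.sin (2 * (m : ℝ) * θ)) θ := by
    intro θ _
    have h0 : HasDerivAt (fun θ : ℝ => 2 * (m : ℝ) * θ) (2 * m) θ := by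
      simpa using (hasDerivAt_id θ).const_mul (2 * (m : ℝ))
    have h1 := h0.cos
    have h2 := h0.sin
    have h3 := (((hasDerivAt_id θ).neg.mul h1).div_const (2 * (m : ℝ))).add (h2.div_const (4 * (m : ℝ) ^ 2))
    refine h3.congr_deriv ?_
    simp only [id, Pi.neg_apply]
    field_simp
    ring
  have hc : IntervalIntegrable (fun θ : ℝ => θ * Real.sin (2 * (m : ℝ) * θ)) volume 0 (Real.pi / 2) :=
    (by fun_prop : Continuous fun θ : ℝ => θ * Real.sin (2 * (m : ℝ) * θ)).intervalIntegrable _ _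
  rw [intervalIntegral.integral_eq_sub_of_hasDerivAt hd hc]
  have h1 : 2 * (m : ℝ) * (Real.pi / 2) = m * Real.pi := by ring
  rw [h1, Real.sin_nat_mul_pi, Real.cos_nat_mul_pi]
  simp only [mul_zero, Real.cos_zero, Real.sin_zero]
  field_simp
  ring

theorem integral_rho_log {b : ℝ} (hb : 0 < b) {w : ℂ} (hw : 1 < ‖w‖) :
    ∫ x in (0 : ℝ)..(2 * b), (2 * (x : ℂ) / (((b : ℂ) * (w + w⁻¹)) ^ 2 - (x : ℂ) ^ 2)) * (rho b x : ℂ) =
      Complex.log (1 + w⁻¹ ^ 2) := by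
  have hw0 : w ≠ 0 := by
    intro h
    rw [h, norm_zero] at hw
    linarith
  have hb' : (b : ℂ) ≠ 0 := by exact_mod_cast hb.ne'
  have hπ : (Real.pi : ℂ) ≠ 0 := by exact_mod_cast Real.pi_ne_zero
  obtain ⟨v, hv⟩ : ∃ v, v = w⁻¹ ^ 2 := ⟨_, rfl⟩
  have hv1 : ‖v‖ < 1 := by
    rw [hv, norm_pow, norm_inv]
    have h1 : ‖w‖⁻¹ < 1 := inv_lt_one_of_one_lt₀ hw
    have h2 : 0 ≤ ‖w‖⁻¹ := by positivity
    nlinarith
  -- the denominator
  have hden : ∀ θ : ℝ, ((b : ℂ) * (w + w⁻¹)) ^ 2 - ((2 * b * Real.cos θ : ℝ) : ℂ) ^ 2 =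
      (b : ℂ) ^ 2 * w ^ 2 * ((1 - v * Complex.exp (2 * θ * Complex.I)) *
        (1 - v * Complex.exp (-(2 * θ * Complex.I)))) := by
    intro θ
    have h1 : ((Real.cos θ : ℝ) : ℂ) ^ 2 = (2 + (Complex.exp (2 * θ * Complex.I) +
        Complex.exp (-(2 * θ * Complex.I)))) / 4 := by
      rw [Complex.ofReal_cos, Complex.cos]
      have e1 : Complex.exp (2 * θ * Complex.I) = Complex.exp (θ * Complex.I) ^ 2 := by
        rw [← Complex.exp_nat_mul]
        congr 1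
        push_cast
        ring
      have e2 : Complex.exp (-(2 * θ * Complex.I)) = Complex.exp (-θ * Complex.I) ^ 2 := by
        rw [← Complex.exp_nat_mul]
        congr 1
        push_cast
        ring
      have e3 : Complex.exp (θ * Complex.I) * Complex.exp (-θ * Complex.I) = 1 := by
        rw [← Complex.exp_add]
        simp
      rw [e1, e2]
      linear_combination (1 / 2 : ℂ) * e3
    have h2 : Complex.exp (2 * θ * Complex.I) * Complex.exp (-(2 * θ * Complex.I)) = 1 := by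
      rw [← Complex.exp_add, add_neg_cancel, Complex.exp_zero]
    have h3 : ((2 * b * Real.cos θ : ℝ) : ℂ) ^ 2 = 4 * (b : ℂ) ^ 2 * ((Real.cos θ : ℝ) : ℂ) ^ 2 := by
      push_cast
      ring
    rw [h3, h1, hv]
    generalize Complex.exp (2 * θ * Complex.I) = E at *
    generalize Complex.exp (-(2 * θ * Complex.I)) = E' at *
    have h4 : w * w⁻¹ = 1 := mul_inv_cancel₀ hw0
    generalize w⁻¹ = u at *
    have h5 : w ^ 2 * u ^ 2 = 1 := by rw [← mul_pow, h4, one_pow]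
    linear_combination (-(b : ℂ) ^ 2 * w ^ 2 * u ^ 4) * h2 + (2 * (b : ℂ) ^ 2) * h4 +
      ((b : ℂ) ^ 2 * (E + E') - (b : ℂ) ^ 2 * u ^ 2) * h5
  have hne : ∀ θ : ℝ, ((1 - v * Complex.exp (2 * θ * Complex.I)) *
      (1 - v * Complex.exp (-(2 * θ * Complex.I)))) ≠ 0 := fun θ =>
    mul_ne_zero (ne61 hv1 (norm_E61 θ)) (ne61 hv1 (norm_E61' θ))
  -- the integrand
  obtain ⟨G, hG⟩ : ∃ G : ℝ → ℂ, G = fun x : ℝ => (2 * (x : ℂ) / (((b : ℂ) * (w + w⁻¹)) ^ 2 - (x : ℂ) ^ 2)) *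
    (rho b x : ℂ) := ⟨_, rfl⟩
  have hf0 : ∀ θ : ℝ, HasDerivAt (fun θ : ℝ => 2 * b * Real.cos θ) (-(2 * b * Real.sin θ)) θ := by
    intro θ
    have h := (Real.hasDerivAt_cos θ).const_mul (2 * b)
    refine h.congr_deriv ?_
    ring
  have hGc : ContinuousOn G ((fun θ : ℝ => 2 * b * Real.cos θ) '' Set.uIcc (Real.pi / 2) 0) := by
    rw [hG]
    refine ContinuousOn.mul ?_ ((Complex.continuous_ofReal.comp (continuous_rho b)).continuousOn)
    refine ContinuousOn.div (by fun_prop) (by fun_prop) ?_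
    rintro x ⟨θ, -, rfl⟩
    change ((b : ℂ) * (w + w⁻¹)) ^ 2 - ((2 * b * Real.cos θ : ℝ) : ℂ) ^ 2 ≠ 0
    rw [hden]
    exact mul_ne_zero (mul_ne_zero (pow_ne_zero _ hb') (pow_ne_zero _ hw0)) (hne θ)
  have hsub := intervalIntegral.integral_deriv_smul_comp' (a := Real.pi / 2) (b := 0)
    (f := fun θ : ℝ => 2 * b * Real.cos θ) (f' := fun θ => -(2 * b * Real.sin θ)) (g := G)
    (fun θ _ => hf0 θ) (by fun_prop) hGc
  simp only [Real.cos_pi_div_two, mul_zero, Real.cos_zero, mul_one] at hsub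
  rw [hG] at hsub
  rw [← hsub, ← hv, intervalIntegral.integral_symm]
  -- the series
  have hser : ∀ θ : ℝ, 0 ≤ θ → θ ≤ Real.pi / 2 → HasSum (fun k : ℕ => (4 / (Real.pi : ℂ)) *
      (v ^ (k + 1) * ((θ * Real.sin (2 * ((k + 1 : ℕ) : ℝ) * θ) : ℝ) : ℂ)))
      (-(((-(2 * b * Real.sin θ) : ℝ)) • ((fun x : ℝ => (2 * (x : ℂ) /
        (((b : ℂ) * (w + w⁻¹)) ^ 2 - (x : ℂ) ^ 2)) * (rho b x : ℂ)) ∘ fun θ : ℝ => 2 * b * Real.cos θ) θ)) := by
    intro θ h0 h1
    have h2 := ((series61 hv1 θ).mul_left (θ : ℂ)).mul_left (4 / (Real.pi : ℂ))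
    have h3 : rho b (2 * b * Real.cos θ) = θ / Real.pi := by
      unfold rho
      have h4 : 2 * b * Real.cos θ / (2 * b) = Real.cos θ := by field_simp
      rw [h4, Real.arccos_cos h0 (by linarith [Real.pi_pos])]
    have h5 : -(((-(2 * b * Real.sin θ) : ℝ)) • ((fun x : ℝ => (2 * (x : ℂ) /
        (((b : ℂ) * (w + w⁻¹)) ^ 2 - (x : ℂ) ^ 2)) * (rho b x : ℂ)) ∘ fun θ : ℝ => 2 * b * Real.cos θ) θ) =
        4 / (Real.pi : ℂ) * ((θ : ℂ) * (v * ((Real.sin (2 * θ) : ℝ) : ℂ) /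
          ((1 - v * Complex.exp (2 * θ * Complex.I)) * (1 - v * Complex.exp (-(2 * θ * Complex.I)))))) := by
      simp only [Function.comp_apply]
      rw [h3, hden θ, Complex.real_smul, Real.sin_two_mul]
      have hQ := hne θ
      generalize (1 - v * Complex.exp (2 * θ * Complex.I)) * (1 - v * Complex.exp (-(2 * θ * Complex.I))) = Q
        at *
      have h6 : v * w ^ 2 = 1 := by
        rw [hv, ← mul_pow, inv_mul_cancel₀ hw0, one_pow]
      have h7 : v = 1 / w ^ 2 := by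
        rw [eq_div_iff (pow_ne_zero _ hw0)]
        exact h6
      rw [h7]
      push_cast
      field_simp
      ring
    rw [h5]
    refine hs_congr61 h2 fun k => ?_
    push_cast
    ring
  have hI : HasSum (fun k : ℕ => ∫ θ in (0 : ℝ)..(Real.pi / 2), (4 / (Real.pi : ℂ)) *
      (v ^ (k + 1) * ((θ * Real.sin (2 * ((k + 1 : ℕ) : ℝ) * θ) : ℝ) : ℂ)))
      (∫ θ in (0 : ℝ)..(Real.pi / 2), -(((-(2 * b * Real.sin θ) : ℝ)) • ((fun x : ℝ => (2 * (x : ℂ) /
        (((b : ℂ) * (w + w⁻¹)) ^ 2 - (x : ℂ) ^ 2)) * (rho b x : ℂ)) ∘ fun θ : ℝ => 2 * b * Real.cos θ) θ)) := by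
    refine intervalIntegral.hasSum_integral_of_dominated_convergence (fun k _ => 2 * ‖v‖ ^ (k + 1)) ?_ ?_ ?_ ?_ ?_
    · intro k
      have hc : Continuous fun θ : ℝ => (4 / (Real.pi : ℂ)) *
          (v ^ (k + 1) * ((θ * Real.sin (2 * ((k + 1 : ℕ) : ℝ) * θ) : ℝ) : ℂ)) := by fun_prop
      exact hc.aestronglyMeasurable
    · intro k
      refine Filter.Eventually.of_forall fun θ hθ => ?_
      rw [Set.uIoc_of_le (by positivity)] at hθ
      have e1 : |θ * Real.sin (2 * ((k + 1 : ℕ) : ℝ) * θ)| ≤ Real.pi / 2 := by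
        rw [abs_mul, abs_of_nonneg hθ.1.le]
        calc θ * |Real.sin (2 * ((k + 1 : ℕ) : ℝ) * θ)| ≤ (Real.pi / 2) * 1 :=
              mul_le_mul hθ.2 (Real.abs_sin_le_one _) (abs_nonneg _) (by positivity)
          _ = _ := mul_one _
      rw [norm_mul, norm_mul, norm_pow, Complex.norm_real, Real.norm_eq_abs, norm_div, Complex.norm_real,
        Real.norm_of_nonneg Real.pi_pos.le]
      have e2 : ‖(4 : ℂ)‖ = 4 := by norm_num
      rw [e2]
      calc 4 / Real.pi * (‖v‖ ^ (k + 1) * |θ * Real.sin (2 * ((k + 1 : ℕ) : ℝ) * θ)|) ≤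
            4 / Real.pi * (‖v‖ ^ (k + 1) * (Real.pi / 2)) := by gcongr
        _ = 2 * ‖v‖ ^ (k + 1) := by
            have := Real.pi_ne_zero
            field_simp
            ring
    · refine Filter.Eventually.of_forall fun θ _ => ?_
      have := (summable_geometric_of_lt_one (norm_nonneg v) hv1).mul_left (2 * ‖v‖)
      refine this.congr fun k => ?_
      ring
    · exact intervalIntegrable_const
    · refine Filter.Eventually.of_forall fun θ hθ => ?_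
      rw [Set.uIoc_of_le (by positivity)] at hθ
      exact hser θ hθ.1.le hθ.2
  have hterm : ∀ k : ℕ, ∫ θ in (0 : ℝ)..(Real.pi / 2), (4 / (Real.pi : ℂ)) *
      (v ^ (k + 1) * ((θ * Real.sin (2 * ((k + 1 : ℕ) : ℝ) * θ) : ℝ) : ℂ)) =
      (-1) ^ (k + 1 + 1) * v ^ (k + 1) / ((k + 1 : ℕ) : ℂ) := by
    intro k
    rw [intervalIntegral.integral_const_mul, intervalIntegral.integral_const_mul,
      intervalIntegral.integral_ofReal, int_sin61 (Nat.succ_ne_zero k)]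
    have hk : ((k + 1 : ℕ) : ℂ) ≠ 0 := by exact_mod_cast Nat.succ_ne_zero k
    push_cast at hk ⊢
    field_simp
  simp only [hterm] at hI
  have hlog := Complex.hasSum_taylorSeries_log hv1
  have hlog' : HasSum (fun k : ℕ => (-1) ^ (k + 1 + 1) * v ^ (k + 1) / ((k + 1 : ℕ) : ℂ)) (Complex.log (1 + v)) := by
    have h := (hasSum_nat_add_iff' 1).2 hlog
    simpa using h
  rw [intervalIntegral.integral_neg] at hI
  exact hI.unique hlog'

end Pool.Agent.Helper1.DL
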