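import Pool.Agent.Helper1.DL.ShapeDefs

/-!
BLOCK DL-S1 (about 150 lines). The beads of `(A | A)`; it is a self-conjugate partition.

Proof in words. `A ⊆ {0, …, N-1}`.
* `mem_XB`: by the definition (`x = N + a ↔ N ≤ x ∧ x - N = a`; `x = N - 1 - a`, `a < N`, `↔ x < N ∧ a = N - 1 - x`).
* `card_XB`: the two images are disjoint (`≥ N` and `< N`), the maps are injective: `|A| + (N - |A|)`.
* `XB_refl`: `2N - 1 - x ∈ XB ↔ x ∉ XB` for `x < 2N`, from `mem_XB`.
* `sum_XB`: `∑_{x ∈ XB} x = ∑_{a ∈ A} (N + a) + ∑_{a < N, a ∉ A} (N - 1 - a) = ∑_{a<N} (N-1-a) + ∑_{a ∈ A} (2a + 1)`.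
* `shp_mem`: `rowsB_antitone`, `sum_rowsB`, `sum_XB` (`∑_{a<N} (N-1-a) = N(N-1)/2`).
* `shp_le`: `shp N A i ≤ N`: by `bd_rowsB` the bead is `< 2N` and `bd = shp + (N - 1 - i)`; a strictly decreasing sequence of `N` beads `< 2N` has `i`-th member `≤ 2N - 1 - i`.
* `cj_shp`: `rowsB N` is injective on bead sets: `bset N (shp N A) = XB N A` (`bset_eq_image`, `image_bd_rowsB`). `cset_bset` with `a = b = N` (`hr` is void): `bset N (cj (shp N A)) = cset (2N) (XB N A)`, and by the
  definition of `cset` and `XB_refl` `cset (2N) (XB N A) = XB N A`. Then `rowsB_bset` for `cj (shp N A)` (`cj_antitone`) gives `cj (shp N A) = rowsB N (XB N A)`.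
-/

set_option autoImplicit false

open Module Equiv Pool.Agent.Helper51.TF Pool.Agent.Helper70.TG

namespace Pool.Agent.Helper1.DL

theorem mem_XB {N : ℕ} {A : Finset ℕ} {x : ℕ} :
    x ∈ XB N A ↔ (N ≤ x ∧ x - N ∈ A) ∨ (x < N ∧ N - 1 - x ∉ A) := by
  unfold XB
  rw [Finset.mem_union, Finset.mem_image, Finset.mem_image]
  constructor
  · rintro (⟨a, ha, rfl⟩ | ⟨a, ha, rfl⟩)
    · left
      exact ⟨Nat.le_add_right _ _, by rwa [Nat.add_sub_cancel_left]⟩
    · rw [Finset.mem_filter, Finset.mem_range] at ha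
      right
      refine ⟨by omega, ?_⟩
      have : N - 1 - (N - 1 - a) = a := by omega
      rw [this]
      exact ha.2
  · rintro (⟨h1, h2⟩ | ⟨h1, h2⟩)
    · exact Or.inl ⟨x - N, h2, by omega⟩
    · refine Or.inr ⟨N - 1 - x, ?_, by omega⟩
      rw [Finset.mem_filter, Finset.mem_range]
      exact ⟨by omega, h2⟩

private theorem disj1 (N : ℕ) (A : Finset ℕ) : Disjoint (A.image (fun a => N + a))
    (((Finset.range N).filter (fun a => a ∉ A)).image (fun a => N - 1 - a)) := by
  rw [Finset.disjoint_left]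
  rintro x hx hx'
  obtain ⟨a, -, rfl⟩ := Finset.mem_image.1 hx
  obtain ⟨a', ha', h⟩ := Finset.mem_image.1 hx'
  rw [Finset.mem_filter, Finset.mem_range] at ha'
  omega

private theorem inj1 (N : ℕ) (A : Finset ℕ) :
    Set.InjOn (fun a => N - 1 - a) ((Finset.range N).filter (fun a => a ∉ A) : Finset ℕ) := by
  intro a ha b hb h
  rw [Finset.mem_coe, Finset.mem_filter, Finset.mem_range] at ha hb
  have h1 : N - 1 - a = N - 1 - b := h
  omega

theorem card_XB {N : ℕ} {A : Finset ℕ} (hA : ∀ a ∈ A, a < N) : (XB N A).card = N := by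
  unfold XB
  rw [Finset.card_union_of_disjoint (disj1 N A), Finset.card_image_of_injective _ (add_right_injective N),
    Finset.card_image_of_injOn (inj1 N A)]
  have h1 := Finset.card_filter_add_card_filter_not (s := Finset.range N) (fun a => a ∈ A)
  have h2 : (Finset.range N).filter (fun a => a ∈ A) = A := by
    ext a
    rw [Finset.mem_filter, Finset.mem_range]
    exact ⟨fun h => h.2, fun h => ⟨hA a h, h⟩⟩
  rw [h2, Finset.card_range] at h1
  exact h1

theorem XB_refl {N : ℕ} {A : Finset ℕ} {x : ℕ} (hx : x < 2 * N) : 2 * N - 1 - x ∈ XB N A ↔ x ∉ XB N A := by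
  rw [mem_XB, mem_XB]
  rcases lt_or_ge x N with h | h
  · have h1 : N ≤ 2 * N - 1 - x := by omega
    have h2 : 2 * N - 1 - x - N = N - 1 - x := by omega
    have h3 : ¬ (2 * N - 1 - x < N) := by omega
    rw [h2]
    have h4 : ¬ (N ≤ x) := by omega
    tauto
  · have h1 : ¬ (N ≤ 2 * N - 1 - x) := by omega
    have h2 : N - 1 - (2 * N - 1 - x) = x - N := by omega
    have h3 : 2 * N - 1 - x < N := by omega
    rw [h2]
    have h4 : ¬ (x < N) := by omega
    tauto

theorem sum_XB {N : ℕ} {A : Finset ℕ} (hA : ∀ a ∈ A, a < N) :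
    ∑ x ∈ XB N A, x = N * (N - 1) / 2 + (2 * ∑ a ∈ A, a + A.card) := by
  unfold XB
  rw [Finset.sum_union (disj1 N A), Finset.sum_image (fun a _ b _ h => Nat.add_left_cancel h),
    Finset.sum_image (inj1 N A)]
  have h1 := Finset.sum_filter_add_sum_filter_not (Finset.range N) (fun a => a ∈ A) (fun a => N - 1 - a)
  have h2 : (Finset.range N).filter (fun a => a ∈ A) = A := by
    ext a
    rw [Finset.mem_filter, Finset.mem_range]
    exact ⟨fun h => h.2, fun h => ⟨hA a h, h⟩⟩
  have h3 : ∑ a ∈ Finset.range N, (N - 1 - a) = N * (N - 1) / 2 := by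
    rw [Finset.sum_range_reflect (fun i => i) N, Finset.sum_range_id]
  rw [h2, h3] at h1
  have h4 : ∑ a ∈ A, (N + a) = ∑ a ∈ A, (N - 1 - a) + (2 * ∑ a ∈ A, a + A.card) := by
    have : ∀ a ∈ A, N + a = (N - 1 - a) + (2 * a + 1) := fun a ha => by
      have := hA a ha
      omega
    rw [Finset.sum_congr rfl this, Finset.sum_add_distrib, Finset.sum_add_distrib, ← Finset.mul_sum]
    simp
  rw [h4]
  omega

theorem image_bd_shp {N : ℕ} {A : Finset ℕ} (hA : ∀ a ∈ A, a < N) :
    Finset.univ.image (bd (shp N A)) = XB N A :=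
  image_bd_rowsB (card_XB hA)

theorem shp_mem {N : ℕ} {A : Finset ℕ} (hA : ∀ a ∈ A, a < N) : shp N A ∈ PP N (2 * ∑ a ∈ A, a + A.card) := by
  rw [mem_PP]
  refine ⟨rowsB_antitone (card_XB hA), ?_⟩
  have h1 := sum_rowsB (card_XB hA)
  rw [sum_XB hA] at h1
  unfold shp
  omega

theorem shp_le {N : ℕ} {A : Finset ℕ} (hA : ∀ a ∈ A, a < N) (i : Fin N) : shp N A i ≤ N := by
  have h1 : shp N A i ≤ shp N A ⟨0, i.pos⟩ := rowsB_antitone (card_XB hA) (show (⟨0, i.pos⟩ : Fin N) ≤ i from Nat.zero_le _)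
  have h2 : bd (shp N A) ⟨0, i.pos⟩ ∈ XB N A := by
    rw [← image_bd_shp hA]
    exact Finset.mem_image_of_mem _ (Finset.mem_univ _)
  have h3 : bd (shp N A) ⟨0, i.pos⟩ = shp N A ⟨0, i.pos⟩ + (N - 1 - 0) := rfl
  have hp := i.pos
  rcases mem_XB.1 h2 with ⟨h4, h5⟩ | ⟨h4, -⟩
  · have := hA _ h5
    omega
  · omega

theorem cj_shp {N : ℕ} {A : Finset ℕ} (hA : ∀ a ∈ A, a < N) : cj (shp N A) = shp N A := by
  have hanti : Antitone (shp N A) := rowsB_antitone (card_XB hA)
  have h1 : bset N (shp N A) = XB N A := by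
    rw [bset_eq_image, image_bd_shp hA]
  have h2 := cset_bset (shp N A) hanti le_rfl le_rfl (fun i hi => absurd i.2 (not_lt.2 hi)) (shp_le hA)
  rw [h1] at h2
  have h3 : cset (N + N) (XB N A) = XB N A := by
    unfold cset
    ext x
    rw [Finset.mem_image]
    constructor
    · rintro ⟨y, hy, rfl⟩
      rw [Finset.mem_filter, Finset.mem_range] at hy
      have := (XB_refl (A := A) (x := y) (N := N) (by omega)).2 hy.2
      rwa [two_mul] at this
    · intro hx
      have hx2 : x < 2 * N := by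
        rcases mem_XB.1 hx with ⟨h4, h5⟩ | ⟨h4, -⟩
        · have := hA _ h5
          omega
        · omega
      refine ⟨2 * N - 1 - x, ?_, by omega⟩
      rw [Finset.mem_filter, Finset.mem_range]
      refine ⟨by omega, ?_⟩
      intro h
      exact (XB_refl hx2).1 h hx
  rw [h3] at h2
  have h4 := rowsB_bset (cj (shp N A)) (cj_antitone _)
  rw [← h2] at h4
  exact h4.symm

end Pool.Agent.Helper1.DL
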