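import Pool.Agent.Helper1.DL.Defs
import Pool.Agent.Helper70.TG.L0

/-!
Project DL. The self-conjugate partition `(A | A)` as a function of row lengths.

`XB N A` is its set of `N` beads (shifted by `N`): `N + a` for `a ∈ A` and `N - 1 - a` for `a < N`, `a ∉ A`; `shp N A = rowsB N (XB N A)`.
-/

set_option autoImplicit false

open Module Equiv Pool.Agent.Helper51.TF Pool.Agent.Helper70.TG

namespace Pool.Agent.Helper1.DL

/-- The beads of `(A | A)`. -/
def XB (N : ℕ) (A : Finset ℕ) : Finset ℕ :=
  A.image (fun a => N + a) ∪ ((Finset.range N).filter (fun a => a ∉ A)).image (fun a => N - 1 - a)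

/-- The self-conjugate partition with the Frobenius coordinates `A` (row lengths). -/
def shp (N : ℕ) (A : Finset ℕ) : Fin N → ℕ := rowsB N (XB N A)

end Pool.Agent.Helper1.DL
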